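import Pool.Agent.H18.VZ.Targets
import Pool.Agent.H18.HX.Var2
import Pool.Agent.H49.VZ.Base
import Pool.Agent.H5.VZ.NIV

/-!
# Invariant functions of iterates and of conjugate maps: arbitrary homogeneous ideals
-/

open MvPolynomial
open Pool.Agent.H12.ZD (pmap)
open Pool.Agent.H18.HIT Pool.Agent.H18.HX

namespace Pool.Agent.H18.VZ

/-- there is no invariant function on the projective variety `I = 0` -/
def Nfi {L : ℕ} {k : Type} [Field k] (I : Ideal (Po L k)) (f : Tup L k) : Prop :=
  ∀ (m : ℕ) (A B : Po L k), A.IsHomogeneous m → B.IsHomogeneous m → B ∉ I →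
    aeval f A * B - aeval f B * A ∈ I → ∃ s : k, A - C s * B ∈ I

section comp

variable {L M : ℕ} {k : Type} [Field k]

/-- the components of a substitution -/
theorem hom_comp_aeval {G : Fin M → Po L k} {D : ℕ} (hG : ∀ i, (G i).IsHomogeneous D)
    (hD : 1 ≤ D) (t : ℕ) (c : Po M k) :
    homogeneousComponent (D * t) (aeval G c) = aeval G (homogeneousComponent t c) := by
  conv_lhs => rw [← sum_homogeneousComponent c, map_sum, map_sum]
  have h1 : ∀ s, homogeneousComponent (D * t) (aeval G (homogeneousComponent s c)) =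
      if s = t then aeval G (homogeneousComponent t c) else 0 := by
    intro s
    have hs : (aeval G (homogeneousComponent s c)).IsHomogeneous (D * s) :=
      (homogeneousComponent_isHomogeneous s c).aeval G hG
    rw [homogeneousComponent_of_mem hs]
    by_cases hst : s = t
    · subst hst
      rw [if_pos rfl, if_pos rfl]
    · rw [if_neg hst, if_neg]
      intro h
      exact hst (Nat.eq_of_mul_eq_mul_left (by omega) h.symm)
  rw [Finset.sum_congr rfl fun s _ => h1 s, Finset.sum_ite_eq']
  split_ifs with h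
  · rfl
  · rw [homogeneousComponent_eq_zero, map_zero]
    rw [Finset.mem_range] at h
    omega

/-- the components of a multiple of a form -/
theorem dvd_component {P : Po L k} {r : ℕ} (hP : P.IsHomogeneous r) {c : Po L k} (h : P ∣ c)
    (t : ℕ) : P ∣ homogeneousComponent t c := by
  obtain ⟨a, rfl⟩ := h
  rw [← sum_homogeneousComponent a, Finset.mul_sum, map_sum]
  apply Finset.dvd_sum
  intro s _
  have h1 : (P * homogeneousComponent s a).IsHomogeneous (r + s) :=
    hP.mul (homogeneousComponent_isHomogeneous s a)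
  rw [homogeneousComponent_of_mem h1]
  split_ifs
  · exact dvd_mul_right _ _
  · exact dvd_zero _

end comp

theorem nfi_it {L d : ℕ} {k : Type} [Field k] [IsAlgClosed k] {I : Ideal (Po L k)}
    [hprime : I.IsPrime] {F : Tup L k} (hN : Nfi I F) (hF : ∀ i, (F i).IsHomogeneous d)
    (hS : Slf I F) {m : ℕ} (hm : 1 ≤ m) : Nfi I (it F m) := by
  intro μ A B hA hB hPB hAB
  obtain ⟨a, ha⟩ : ∃ a : ℕ → Po L k, a = fun i => aeval (it F i) A := ⟨_, rfl⟩
  obtain ⟨b, hb⟩ : ∃ b : ℕ → Po L k, b = fun i => aeval (it F i) B := ⟨_, rfl⟩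
  have ha0 : a 0 = A := by
    rw [ha]
    show aeval (it F 0) A = A
    rw [it_zero, aeval_X_left_apply]
  have hb0 : b 0 = B := by
    rw [hb]
    show aeval (it F 0) B = B
    rw [it_zero, aeval_X_left_apply]
  have ha1 : ∀ i, a (i + 1) = aeval F (a i) := by
    intro i
    rw [ha]
    exact aeval_it_succ' F i A
  have hb1 : ∀ i, b (i + 1) = aeval F (b i) := by
    intro i
    rw [hb]
    exact aeval_it_succ' F i B
  have ham : aeval (it F m) A = a m := by rw [ha]
  have hbm : aeval (it F m) B = b m := by rw [hb]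
  rw [ham, hbm] at hAB
  have hah : ∀ i, (a i).IsHomogeneous (d ^ i * μ) := by
    intro i
    induction i with
    | zero =>
      rw [ha0, pow_zero, one_mul]
      exact hA
    | succ i ih =>
      rw [ha1, pow_succ', mul_assoc]
      exact ih.aeval F hF
  have hbh : ∀ i, (b i).IsHomogeneous (d ^ i * μ) := by
    intro i
    induction i with
    | zero =>
      rw [hb0, pow_zero, one_mul]
      exact hB
    | succ i ih =>
      rw [hb1, pow_succ', mul_assoc]
      exact ih.aeval F hF
  have hbne : ∀ i, b i ∉ I := by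
    intro i h
    apply hPB
    rw [hb] at h
    exact (hS.it i).inj _ h
  -- the field
  let Q := Po L k ⧸ I
  have hQ : IsDomain Q := Ideal.Quotient.isDomain _
  let K := FractionRing Q
  obtain ⟨φ, hφ⟩ : ∃ φ : Po L k →+* K, φ = (algebraMap Q K).comp
    (Ideal.Quotient.mk I) := ⟨_, rfl⟩
  have hφ0 : ∀ c, φ c = 0 ↔ c ∈ I := by
    intro c
    rw [hφ, RingHom.comp_apply,
      map_eq_zero_iff _ (IsFractionRing.injective Q K)]
    exact Ideal.Quotient.eq_zero_iff_mem
  have hφC : ∀ s : k, φ (C s) = algebraMap k K s := by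
    intro s
    rw [hφ]
    rw [IsScalarTower.algebraMap_apply k Q K]
    rfl
  -- the polynomial
  obtain ⟨G, hG⟩ : ∃ G : Polynomial (Po L k), G = ∏ i ∈ Finset.range m,
    (Polynomial.C (b i) * Polynomial.X - Polynomial.C (a i)) := ⟨_, rfl⟩
  have hGh : ∀ j, (G.coeff j).IsHomogeneous (∑ i ∈ Finset.range m, d ^ i * μ) := by
    intro j
    rw [hG]
    exact Pool.Agent.H5.VZ.niv_coeff a b (fun i => d ^ i * μ) hah hbh m j
  obtain ⟨G', hG'⟩ : ∃ G' : Polynomial (Po L k),
    G' = G.map (aeval F : Po L k →ₐ[k] Po L k).toRingHom := ⟨_, rfl⟩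
  have hG'c : ∀ j, G'.coeff j = aeval F (G.coeff j) := by
    intro j
    rw [hG', Polynomial.coeff_map]
    rfl
  have hG'2 : G' = ∏ i ∈ Finset.range m,
      (Polynomial.C (b (i + 1)) * Polynomial.X - Polynomial.C (a (i + 1))) := by
    rw [hG', hG, Polynomial.map_prod]
    refine Finset.prod_congr rfl fun i _ => ?_
    rw [Polynomial.map_sub, Polynomial.map_mul, Polynomial.map_C, Polynomial.map_C,
      Polynomial.map_X, ha1, hb1]
    rfl
  have hGG : G' * (Polynomial.C (b 0) * Polynomial.X - Polynomial.C (a 0)) =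
      G * (Polynomial.C (b m) * Polynomial.X - Polynomial.C (a m)) := by
    rw [hG'2, hG, ← Finset.prod_range_succ]
    exact (Finset.prod_range_succ' (fun i => Polynomial.C (b i) * Polynomial.X -
      Polynomial.C (a i)) m).symm
  have hb0' : φ (b 0) ≠ 0 := fun h => hbne 0 ((hφ0 _).1 h)
  have hlin : Polynomial.C (φ (b 0)) * (Polynomial.C (φ (b m)) * Polynomial.X -
      Polynomial.C (φ (a m))) = Polynomial.C (φ (b m)) *
      (Polynomial.C (φ (b 0)) * Polynomial.X - Polynomial.C (φ (a 0))) := by
    have h1 : φ (a m) * φ (b 0) - φ (b m) * φ (a 0) = 0 := by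
      rw [← map_mul, ← map_mul, ← map_sub, hφ0, ha0, hb0]
      exact hAB
    have h2 : Polynomial.C (φ (a m)) * Polynomial.C (φ (b 0)) =
        Polynomial.C (φ (b m)) * Polynomial.C (φ (a 0)) := by
      rw [← Polynomial.C_mul, ← Polynomial.C_mul, sub_eq_zero.1 h1]
    linear_combination (-1 : Polynomial K) * h2
  have hlne : Polynomial.C (φ (b 0)) * Polynomial.X - Polynomial.C (φ (a 0)) ≠ 0 := by
    intro h
    apply hb0'
    have h1 := congrArg (fun p : Polynomial K => p.coeff 1) h
    simpa using h1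
  have hmap : Polynomial.C (φ (b 0)) * G'.map φ = Polynomial.C (φ (b m)) * G.map φ := by
    apply mul_right_cancel₀ hlne
    have h1 := congrArg (Polynomial.map φ) hGG
    rw [Polynomial.map_mul, Polynomial.map_mul, Polynomial.map_sub, Polynomial.map_sub,
      Polynomial.map_mul, Polynomial.map_mul, Polynomial.map_C, Polynomial.map_C,
      Polynomial.map_C, Polynomial.map_C, Polynomial.map_X] at h1
    calc Polynomial.C (φ (b 0)) * G'.map φ *
          (Polynomial.C (φ (b 0)) * Polynomial.X - Polynomial.C (φ (a 0)))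
        = Polynomial.C (φ (b 0)) * (G'.map φ *
          (Polynomial.C (φ (b 0)) * Polynomial.X - Polynomial.C (φ (a 0)))) := by ring
      _ = Polynomial.C (φ (b 0)) * (G.map φ *
          (Polynomial.C (φ (b m)) * Polynomial.X - Polynomial.C (φ (a m)))) := by rw [h1]
      _ = G.map φ * (Polynomial.C (φ (b 0)) *
          (Polynomial.C (φ (b m)) * Polynomial.X - Polynomial.C (φ (a m)))) := by ring
      _ = _ := by
        rw [hlin]
        ring
  have hco : ∀ j, φ (b 0) * φ (aeval F (G.coeff j)) = φ (b m) * φ (G.coeff j) := by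
    intro j
    have h1 := congrArg (fun p : Polynomial K => p.coeff j) hmap
    simp only [Polynomial.coeff_C_mul, Polynomial.coeff_map] at h1
    rw [hG'c] at h1
    exact h1
  -- the top coefficient
  have hdeg : ∀ i, (Polynomial.C (b i) * Polynomial.X - Polynomial.C (a i)).natDegree ≤ 1 := by
    intro i
    rw [sub_eq_add_neg, ← Polynomial.C_neg]
    exact Polynomial.natDegree_linear_le
  have htop : G.coeff m = ∏ i ∈ Finset.range m, b i := by
    have h1 := Polynomial.coeff_prod_of_natDegree_le (s := Finset.range m)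
      (fun i => Polynomial.C (b i) * Polynomial.X - Polynomial.C (a i)) 1 (fun i _ => hdeg i)
    rw [Finset.card_range, mul_one, ← hG] at h1
    rw [h1]
    refine Finset.prod_congr rfl fun i _ => ?_
    rw [Polynomial.coeff_sub, Polynomial.coeff_C_mul, Polynomial.coeff_X_one, mul_one,
      Polynomial.coeff_C_succ, sub_zero]
  have hGm : φ (G.coeff m) ≠ 0 := by
    rw [htop, map_prod, Finset.prod_ne_zero_iff]
    exact fun i _ h => hbne i ((hφ0 _).1 h)
  have hnd : G.natDegree ≤ m := by
    rw [hG]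
    refine (Polynomial.natDegree_prod_le _ _).trans ?_
    refine (Finset.sum_le_sum fun i _ => hdeg i).trans ?_
    rw [Finset.sum_const, Finset.card_range, smul_eq_mul, mul_one]
  have hs : ∀ j, ∃ s : k, φ (G.coeff j) = algebraMap k K s * φ (G.coeff m) := by
    intro j
    have h1 : aeval F (G.coeff j) * G.coeff m - aeval F (G.coeff m) * G.coeff j ∈ I := by
      rw [← hφ0, map_sub, map_mul, map_mul]
      apply mul_left_cancel₀ hb0'
      rw [mul_zero, mul_sub, ← mul_assoc, ← mul_assoc, hco, hco]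
      ring
    obtain ⟨s, hs⟩ := hN _ _ _ (hGh j) (hGh m) (fun h => hGm ((hφ0 _).2 h)) h1
    refine ⟨s, ?_⟩
    rw [← hφ0, map_sub, map_mul, hφC] at hs
    exact sub_eq_zero.1 hs
  choose s hs using hs
  obtain ⟨S, hS'⟩ : ∃ S : Polynomial k, S = ∑ j ∈ Finset.range (m + 1),
    Polynomial.C (s j) * Polynomial.X ^ j := ⟨_, rfl⟩
  have hSm : S.coeff m = s m := by
    rw [hS', Polynomial.finsetSum_coeff, Finset.sum_eq_single_of_mem m
      (Finset.mem_range.2 (Nat.lt_succ_self m))]
    · rw [Polynomial.coeff_C_mul, Polynomial.coeff_X_pow_self, mul_one]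
    · intro j _ hj
      rw [Polynomial.coeff_C_mul, Polynomial.coeff_X_pow, if_neg (Ne.symm hj), mul_zero]
  have hSne : S ≠ 0 := by
    intro h
    rw [h, Polynomial.coeff_zero] at hSm
    apply hGm
    rw [hs m, ← hSm, map_zero, zero_mul]
  obtain ⟨x, hx⟩ : ∃ x : K, x = φ (a 0) / φ (b 0) := ⟨_, rfl⟩
  have hGx : (G.map φ).eval x = 0 := by
    rw [hG, Polynomial.map_prod, Polynomial.eval_prod]
    apply Finset.prod_eq_zero (Finset.mem_range.2 hm)
    rw [Polynomial.map_sub, Polynomial.map_mul, Polynomial.map_C, Polynomial.map_C,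
      Polynomial.map_X, Polynomial.eval_sub, Polynomial.eval_mul, Polynomial.eval_C,
      Polynomial.eval_C, Polynomial.eval_X, hx, mul_div_cancel₀ _ hb0', sub_self]
  have hSx : Polynomial.aeval x S = 0 := by
    rw [Polynomial.eval_map, Polynomial.eval₂_eq_sum_range' φ
      (Nat.lt_succ_of_le hnd)] at hGx
    have h1 : φ (G.coeff m) * Polynomial.aeval x S = 0 := by
      rw [← hGx, hS', map_sum, Finset.mul_sum]
      refine Finset.sum_congr rfl fun j _ => ?_
      rw [map_mul, map_pow, Polynomial.aeval_X, Polynomial.aeval_C, hs j]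
      ring
    exact (mul_eq_zero.1 h1).resolve_left hGm
  have hint : IsIntegral k x := IsAlgebraic.isIntegral ⟨S, hSne, hSx⟩
  have hdeg1 : (minpoly k x).degree = 1 :=
    IsAlgClosed.degree_eq_one_of_irreducible k (minpoly.irreducible hint)
  obtain ⟨c, hc⟩ := minpoly.mem_range_of_degree_eq_one k x hdeg1
  refine ⟨c, ?_⟩
  rw [← hφ0, map_sub, map_mul, hφC]
  have h2 : φ (a 0) = x * φ (b 0) := by rw [hx, div_mul_cancel₀ _ hb0']
  rw [← ha0, ← hb0, h2, ← hc, sub_self]


section gen

variable {L M : ℕ} {k : Type} [Field k] {I : Ideal (Po L k)}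

/-- substitution of multiples -/
theorem aeval_mul_of_hom' {q : Po M k} {t : ℕ} (hq : q.IsHomogeneous t) (h : Po L k)
    (G : Fin M → Po L k) : aeval (fun i => h * G i) q = h ^ t * aeval G q := by
  rw [aeval_def, aeval_def, eval₂_eq', eval₂_eq', Finset.mul_sum]
  apply Finset.sum_congr rfl
  intro m hm
  have h1 : ∏ i, (h * G i) ^ m i = h ^ t * ∏ i, G i ^ m i := by
    rw [Finset.prod_congr rfl fun i _ => mul_pow h (G i) (m i), Finset.prod_mul_distrib,
      Finset.prod_pow_eq_pow_sum]
    congr 2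
    have h2 := hq (mem_support_iff.mp hm)
    rw [Finsupp.weight_apply, Finsupp.sum_fintype _ _ (fun i => by simp)] at h2
    simpa using h2
  rw [h1]
  ring

theorem aeval_congr' {G G' : Fin M → Po L k} (h : ∀ i, G i - G' i ∈ I) (c : Po M k) :
    aeval G c - aeval G' c ∈ I := by
  rw [← Ideal.Quotient.eq]
  have h1 : ∀ i, Ideal.Quotient.mk I (G i) = Ideal.Quotient.mk I (G' i) :=
    fun i => Ideal.Quotient.eq.mpr (h i)
  have h2 : (Ideal.Quotient.mkₐ k I).comp (aeval G : Po M k →ₐ[k] Po L k) =
      (Ideal.Quotient.mkₐ k I).comp (aeval G' : Po M k →ₐ[k] Po L k) := by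
    apply algHom_ext
    intro i
    rw [AlgHom.comp_apply, AlgHom.comp_apply, aeval_X, aeval_X]
    exact h1 i
  exact DFunLike.congr_fun h2 c

end gen

theorem Nfi.cross {L : ℕ} {k : Type} [Field k] {I : Ideal (Po L k)} [hI : I.IsPrime]
    {f g : Tup L k} (hN : Nfi I f) (hcross : ∀ i j, f i * g j - f j * g i ∈ I)
    (hg : ∃ i, g i ∉ I) : Nfi I g := by
  intro m A B hA hB hBI hAB
  obtain ⟨j, hj⟩ := hg
  have key : ∀ c : Po L k, c.IsHomogeneous m → g j ^ m * aeval f c - f j ^ m * aeval g c ∈ I := by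
    intro c hc
    have h1 : aeval (fun i => g j * f i) c - aeval (fun i => f j * g i) c ∈ I := by
      apply aeval_congr
      intro i
      have h2 := hcross i j
      have h3 : g j * f i - f j * g i = f i * g j - f j * g i := by ring
      rw [h3]
      exact h2
    rwa [aeval_mul_of_hom hc, aeval_mul_of_hom hc] at h1
  apply hN m A B hA hB hBI
  have h1 : g j ^ m * (aeval f A * B - aeval f B * A) =
      (g j ^ m * aeval f A - f j ^ m * aeval g A) * B -
      (g j ^ m * aeval f B - f j ^ m * aeval g B) * A +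
      f j ^ m * (aeval g A * B - aeval g B * A) := by ring
  have h2 : g j ^ m * (aeval f A * B - aeval f B * A) ∈ I := by
    rw [h1]
    exact I.add_mem (I.sub_mem (I.mul_mem_right _ (key A hA)) (I.mul_mem_right _ (key B hB)))
      (I.mul_mem_left _ hAB)
  exact (hI.mem_or_mem h2).resolve_left fun h => hj (hI.mem_of_pow_mem _ h)

/-- dominance is inherited by other representatives -/
theorem slf_cross {L dg : ℕ} {k : Type} [Field k] {I : Ideal (Po L k)} [hI : I.IsPrime]
    (hhom : ∀ c ∈ I, ∀ t, homogeneousComponent t c ∈ I)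
    {f g : Tup L k} (hf : Slf I f) (hcross : ∀ i j, f i * g j - f j * g i ∈ I)
    (hfne : ∃ j, f j ∉ I) (hg : ∀ i, (g i).IsHomogeneous dg) (hdg : 1 ≤ dg)
    (hgI : ∃ i, g i ∉ I) : Slf I g := by
  have hinv := inv_of_cross hhom hf.inv hcross hfne
  refine ⟨hinv, fun c hc => ?_⟩
  obtain ⟨j, hj⟩ := hgI
  rw [← sum_homogeneousComponent c]
  apply Ideal.sum_mem
  intro t _
  have hth : (homogeneousComponent t c).IsHomogeneous t := homogeneousComponent_isHomogeneous t c
  have hcomp : aeval g (homogeneousComponent t c) ∈ I := by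
    rw [← hom_comp_aeval hg hdg]
    exact hhom _ hc _
  have h1 : aeval (fun i => g j * f i) (homogeneousComponent t c) -
      aeval (fun i => f j * g i) (homogeneousComponent t c) ∈ I := by
    apply aeval_congr
    intro i
    have h2 := hcross i j
    have h3 : g j * f i - f j * g i = f i * g j - f j * g i := by ring
    rw [h3]
    exact h2
  rw [aeval_mul_of_hom hth, aeval_mul_of_hom hth] at h1
  have h4 := I.add_mem h1 (I.mul_mem_left (f j ^ t) hcomp)
  rw [sub_add_cancel] at h4
  rcases hI.mem_or_mem h4 with h5 | h5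
  · exact absurd (hI.mem_of_pow_mem t h5) hj
  · exact hf.inj _ h5

section lift

variable {L N r δ d : ℕ} {k : Type} [Field k] {I : Ideal (Po L k)} [hI : I.IsPrime]
  {l : Fin (N + 1) → Po L k} {P : Po (N + 1) k} {Δ : Po N k} {g : Tup L k} {F : Tup (N + 1) k}

omit hI in
/-- the denominator is not in the ideal -/
theorem den_notMem (hpro : Pro I l P r Δ δ) : aeval (fun j : Fin N => l j.succ) Δ ∉ I := by
  intro h
  have h1 : aeval l (up Δ) ∈ I := by
    rw [up, aeval_rename]
    exact h
  exact Pool.Agent.H49.VZ.not_dvd_up hpro.hyp hpro.dne ((hpro.ker _).mp h1)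

omit hI in
/-- pulling back forms -/
theorem lift_form (hFl : ∀ i, aeval (fun j : Fin N => l j.succ) Δ * aeval g (l i) -
    aeval l (F i) ∈ I) {m : ℕ} {c : Po (N + 1) k} (hc : c.IsHomogeneous m) :
    aeval (fun j : Fin N => l j.succ) Δ ^ m * aeval g (aeval l c) - aeval l (aeval F c) ∈ I := by
  have h1 := aeval_congr' hFl c
  rw [aeval_mul_of_hom' hc] at h1
  have h2 : aeval (fun i => aeval g (l i)) c = aeval g (aeval l c) := by
    rw [← AlgHom.comp_apply, comp_aeval]
  have h3 : aeval (fun i => aeval l (F i)) c = aeval l (aeval F c) := by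
    rw [← AlgHom.comp_apply, comp_aeval]
  rw [h2, h3] at h1
  exact h1

/-- the lifted map is dominant -/
theorem lift_slf (hpro : Pro I l P r Δ δ) (hs : Slf I g) {D : ℕ}
    (hF : ∀ i, (F i).IsHomogeneous D) (hD : 1 ≤ D)
    (hFl : ∀ i, aeval (fun j : Fin N => l j.succ) Δ * aeval g (l i) - aeval l (F i) ∈ I)
    (hFP : P ∣ aeval F P) : Slf (Ideal.span {P}) F := by
  refine ⟨inv_span hFP, fun c hc => ?_⟩
  rw [Ideal.mem_span_singleton] at hc ⊢
  rw [← sum_homogeneousComponent c]
  apply Finset.dvd_sum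
  intro t _
  have hth : (homogeneousComponent t c).IsHomogeneous t := homogeneousComponent_isHomogeneous t c
  have h1 : P ∣ aeval F (homogeneousComponent t c) := by
    rw [← hom_comp_aeval hF hD]
    exact dvd_component hpro.hyp.hom hc _
  have h2 := lift_form hFl hth
  have h3 : aeval l (aeval F (homogeneousComponent t c)) ∈ I := (hpro.ker _).mpr h1
  have h4 := I.add_mem h2 h3
  rw [sub_add_cancel] at h4
  have h5 := (hI.mem_or_mem h4).resolve_left fun h => den_notMem hpro (hI.mem_of_pow_mem _ h)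
  exact (hpro.ker _).mp (hs.inj _ h5)

/-- the lifted map has no invariant function -/
theorem lift_niv (hpro : Pro I l P r Δ δ) (hN : Nfi I g)
    (hFl : ∀ i, aeval (fun j : Fin N => l j.succ) Δ * aeval g (l i) - aeval l (F i) ∈ I) :
    NIv P F := by
  intro m A B hA hB hPB hAB
  have hlA : (aeval l A).IsHomogeneous (1 * m) := hA.aeval l hpro.lin
  have hlB : (aeval l B).IsHomogeneous (1 * m) := hB.aeval l hpro.lin
  have hBI : aeval l B ∉ I := fun h => hPB ((hpro.ker _).mp h)
  obtain ⟨D', hD'⟩ : ∃ D' : Po L k, D' = aeval (fun j : Fin N => l j.succ) Δ := ⟨_, rfl⟩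
  have hDI : D' ∉ I := by rw [hD']; exact den_notMem hpro
  have kA := lift_form hFl hA
  have kB := lift_form hFl hB
  rw [← hD'] at kA kB
  have h1 : aeval l (aeval F A) * aeval l B - aeval l (aeval F B) * aeval l A ∈ I := by
    rw [← map_mul, ← map_mul, ← map_sub]
    exact (hpro.ker _).mpr hAB
  have h2 : D' ^ m * (aeval g (aeval l A) * aeval l B - aeval g (aeval l B) * aeval l A) ∈ I := by
    have h3 : D' ^ m * (aeval g (aeval l A) * aeval l B - aeval g (aeval l B) * aeval l A) =
        (D' ^ m * aeval g (aeval l A) - aeval l (aeval F A)) * aeval l B -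
        (D' ^ m * aeval g (aeval l B) - aeval l (aeval F B)) * aeval l A +
        (aeval l (aeval F A) * aeval l B - aeval l (aeval F B) * aeval l A) := by ring
    rw [h3]
    exact I.add_mem (I.sub_mem (I.mul_mem_right _ kA) (I.mul_mem_right _ kB)) h1
  obtain ⟨s, hs⟩ := hN _ _ _ hlA hlB hBI
    ((hI.mem_or_mem h2).resolve_left fun h => hDI (hI.mem_of_pow_mem _ h))
  refine ⟨s, (hpro.ker _).mp ?_⟩
  rw [map_sub, map_mul, aeval_C, algebraMap_eq]
  exact hs

end lift

end Pool.Agent.H18.VZ
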