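import Pool.Agent.H18.VZ.Defs

/-!
# Non-fibered rational self-maps of arbitrary varieties: the targets
-/

open MvPolynomial
open Pool.Agent.H12.ZD (pmap)
open Pool.Agent.H18.HIT Pool.Agent.H18.HX

namespace Pool.Agent.H18.VZ

/-! ## A. Logarithmic forms -/

/-- valuation rings over a power series ring -/
def T_VRG : Prop := ∀ (κ : Type) [Field κ], ∃ (Ω : Type) (_ : Field Ω) (_ : IsAlgClosed Ω)
  (ι : PowerSeries κ →+* Ω) (𝒪 : ValuationSubring Ω), Dom ι 𝒪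

/-- embeddings and their reductions -/
def T_BIJ : Prop := ∀ (L K Ω : Type) [Field L] [CharZero L] [Field K] [Field Ω] [IsAlgClosed Ω]
  [Algebra L K] [Algebra L Ω] [FiniteDimensional L K] (𝒪 : ValuationSubring Ω)
  (hL : ∀ y : L, algebraMap L Ω y ∈ 𝒪) (ϖ : K →+* IsLocalRing.ResidueField 𝒪),
  (∀ y : L, ϖ (algebraMap L K y) = IsLocalRing.residue 𝒪 ⟨algebraMap L Ω y, hL y⟩) →
  ∃ (σ : K →ₐ[L] Ω) (hσ : ∀ y, σ y ∈ 𝒪), (∀ y, IsLocalRing.residue 𝒪 ⟨σ y, hσ y⟩ = ϖ y) ∧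
    ∀ σ' : K →ₐ[L] Ω, (∀ y, 𝒪.valuation (σ' y - σ y) < 1) → σ' = σ

/-- symmetric functions of the conjugates -/
def T_TRA : Prop := ∀ (S L K : Type) [CommRing S] [IsDomain S] [IsIntegrallyClosed S] [CharZero S]
  [Field L] [Field K] [Algebra S L] [IsFractionRing S L] [Algebra L K] [Algebra S K]
  [IsScalarTower S L K] [FiniteDimensional L K] (x y : K), IsIntegral S x → IsIntegral S y →
  ∃ (χ : Polynomial S) (U : ℕ → Polynomial S), χ.Monic ∧ χ.natDegree = Module.finrank L K ∧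
    ∀ (Ω : Type) [Field Ω] [IsAlgClosed Ω] [Algebra L Ω] (e : Fin (Module.finrank L K) ≃
      (K →ₐ[L] Ω)),
      χ.map ((algebraMap L Ω).comp (algebraMap S L)) =
        ∏ a, (Polynomial.X - Polynomial.C (e a y)) ∧
      ∀ j, (U j).map ((algebraMap L Ω).comp (algebraMap S L)) =
        ∑ a, Polynomial.C (e a x ^ j) *
          ∏ a' ∈ Finset.univ.erase a, (Polynomial.X - Polynomial.C (e a' y))

/-- the conjugates of the generic point of `H` -/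
def T_TRD : Prop := ∀ (N r : ℕ) (k : Type) [Field k] [CharZero k] [IsAlgClosed k]
  (P : Po (N + 1) k) (H : Ideal (Po (N + 1) k)) (h : Po N k) (i : Fin N), Hyp P r → Pdv P H h →
  Hmi H → eval (Pi.single i 1) h ≠ 0 →
  ∃ (χ : Po N k) (U : ℕ → Po N k) (δ m : ℕ), χ ≠ 0 ∧ 1 ≤ m ∧ χ.IsHomogeneous m ∧
    ∀ (κ : Type) [Field κ] [Algebra k κ] (ψ : Po (N + 1) k →ₐ[k] PowerSeries κ), Arc P ψ →
    ∀ (Ω : Type) [Field Ω] [IsAlgClosed Ω] (ι : PowerSeries κ →+* Ω) (𝒪 : ValuationSubring Ω),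
      Dom ι 𝒪 → ∃ (ρ ξ : Fin δ → Ω) (Rt : Finset Ω) (s : k), Trd P H h i χ U ψ ι 𝒪 δ ρ ξ Rt s

/-- the numerator of the coefficient of the form -/
noncomputable def num {N : ℕ} {k : Type} [Field k] (P : Po (N + 1) k) (r : ℕ) (U : ℕ → Po N k) :
    Po (N + 1) k := ∑ j ∈ Finset.range r, ec P j * up (U j)

/-- the difference quotient of `P` in the variable `X 0` -/
def T_EKR : Prop := ∀ (N r : ℕ) (k Ω : Type) [Field k] [Field Ω] (g : k →+* Ω)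
  (P : Po (N + 1) k), Hyp P r → ∀ (x ξ : Ω) (t : Fin N → Ω),
  (∑ j ∈ Finset.range r, (ec P j).eval₂ g (Fin.cons x t) * ξ ^ j) * (ξ - x) =
    P.eval₂ g (Fin.cons ξ t) - P.eval₂ g (Fin.cons x t) ∧
  ∑ j ∈ Finset.range r, (ec P j).eval₂ g (Fin.cons x t) * x ^ j =
    (pderiv 0 P).eval₂ g (Fin.cons x t)

/-- no pole away from `H` -/
def T_LA1 : Prop := ∀ (N r : ℕ) (k κ Ω : Type) [Field k] [CharZero k] [Field κ] [Algebra k κ]
  [Field Ω] (P : Po (N + 1) k) (H : Ideal (Po (N + 1) k)) (h : Po N k) (i : Fin N) (χ : Po N k)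
  (U : ℕ → Po N k) (ψ : Po (N + 1) k →ₐ[k] PowerSeries κ) (ι : PowerSeries κ →+* Ω)
  (𝒪 : ValuationSubring Ω) (δ : ℕ) (ρ ξ : Fin δ → Ω) (Rt : Finset Ω) (s : k), Hyp P r →
  Pdv P H h → Arc P ψ → χ ≠ 0 → Dom ι 𝒪 → Trd P H h i χ U ψ ι 𝒪 δ ρ ξ Rt s →
  (∃ c ∈ H, rd ψ c ≠ 0) → ψ (up χ) ∣ ψ (num P r U)

/-- the pole along `H` -/
def T_LA2 : Prop := ∀ (N r : ℕ) (k κ Ω : Type) [Field k] [CharZero k] [Field κ] [Algebra k κ]
  [Field Ω] (P : Po (N + 1) k) (H : Ideal (Po (N + 1) k)) (h : Po N k) (i : Fin N) (χ : Po N k)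
  (U : ℕ → Po N k) (ψ : Po (N + 1) k →ₐ[k] PowerSeries κ) (ι : PowerSeries κ →+* Ω)
  (𝒪 : ValuationSubring Ω) (δ : ℕ) (ρ ξ : Fin δ → Ω) (Rt : Finset Ω) (s : k), Hyp P r →
  Pdv P H h → Arc P ψ → χ ≠ 0 → Dom ι 𝒪 → Trd P H h i χ U ψ ι 𝒪 δ ρ ξ Rt s →
  (∀ c, rd ψ c = 0 ↔ c ∈ H) → rd ψ (pderiv 0 P) ≠ 0 →
  ψ (pderiv 0 P * up χ * up h) ∣ ψ (num P r U * up h - pderiv 0 P * up χ * up (pderiv i h))

/-- a uniform bound for the pole -/
def T_LA3 : Prop := ∀ (N r : ℕ) (k κ Ω : Type) [Field k] [CharZero k] [Field κ] [Algebra k κ]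
  [Field Ω] (P : Po (N + 1) k) (H : Ideal (Po (N + 1) k)) (h : Po N k) (i : Fin N) (χ : Po N k)
  (U : ℕ → Po N k) (ψ : Po (N + 1) k →ₐ[k] PowerSeries κ) (ι : PowerSeries κ →+* Ω)
  (𝒪 : ValuationSubring Ω) (δ : ℕ) (ρ ξ : Fin δ → Ω) (Rt : Finset Ω) (s : k) (B : ℕ), Hyp P r →
  Pdv P H h → Arc P ψ → χ ≠ 0 → Dom ι 𝒪 → Trd P H h i χ U ψ ι 𝒪 δ ρ ξ Rt s →
  (∀ g : Po N k, ψ (up g) ∣ PowerSeries.X ^ B * ψ (up (pderiv i g))) →
  ψ (up χ) ∣ PowerSeries.X ^ B * ψ (num P r U)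

/-- the homogeneous component of the right degree -/
def T_HMG : Prop := ∀ (N r m : ℕ) (k : Type) [Field k] [CharZero k] [IsAlgClosed k]
  (P : Po (N + 1) k) (H : Ideal (Po (N + 1) k)) (h : Po N k) (i : Fin N) (a w : Po (N + 1) k),
  Hyp P r → Pdv P H h → Hmi H → w.IsHomogeneous (m + 1) → Dfm P H h i a w →
  Dfm P H h i (homogeneousComponent m a) w

/-- forms in the direction of a coordinate -/
def T_DIR : Prop := ∀ (N r : ℕ) (k : Type) [Field k] [CharZero k] [IsAlgClosed k]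
  (P : Po (N + 1) k) (H : Ideal (Po (N + 1) k)) (h : Po N k) (i : Fin N), Hyp P r → Pdv P H h →
  Hmi H → eval (Pi.single i 1) h ≠ 0 → ∃ (a w : Po (N + 1) k) (m : ℕ), Dfm P H h i a w ∧
    w.IsHomogeneous (m + 1) ∧ a.IsHomogeneous m

/-- logarithmic forms -/
def T_FRM : Prop := ∀ (N r : ℕ) (k : Type) [Field k] [CharZero k] [IsAlgClosed k]
  (P : Po (N + 1) k) (H : Ideal (Po (N + 1) k)) (h : Po N k), Hyp P r → Pdv P H h → Hmi H →
  ∃ (a : Fin N → Po (N + 1) k) (w : Po (N + 1) k) (m : ℕ), Lfm P H h a w m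

/-! ## B. Power series points -/

/-- lifting of a factorization -/
def T_HFC : Prop := ∀ (κ : Type) [Field κ] (Q : Polynomial (PowerSeries κ))
  (A B : Polynomial κ), Q.Monic → A.Monic → B.Monic → IsCoprime A B →
  Q.map PowerSeries.constantCoeff = A * B →
  ∃ A' B' : Polynomial (PowerSeries κ), A'.Monic ∧ B'.Monic ∧
    A'.map PowerSeries.constantCoeff = A ∧ B'.map PowerSeries.constantCoeff = B ∧ Q = A' * B'

/-- the theorem of Newton and Puiseux -/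
def T_NPX : Prop := ∀ (κ : Type) [Field κ] [IsAlgClosed κ] [CharZero κ]
  (Q : Polynomial (PowerSeries κ)), Q.Monic → ∃ (m : ℕ) (f : PowerSeries κ →+* PowerSeries κ)
    (x : Fin Q.natDegree → PowerSeries κ), 1 ≤ m ∧ f PowerSeries.X = PowerSeries.X ^ m ∧
    (∀ a, f (PowerSeries.C a) = PowerSeries.C a) ∧ (∀ c, f c = 0 → c = 0) ∧
    Q.map f = ∏ j, (Polynomial.X - Polynomial.C (x j))

/-- the generic point of a hypersurface, with derivations -/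
def T_KAP : Prop := ∀ (N : ℕ) (k : Type) [Field k] [CharZero k] [IsAlgClosed k] (q : Po N k),
  Irreducible q → ∃ (κ : Type) (_ : Field κ) (_ : IsAlgClosed κ) (_ : Algebra k κ)
    (τ : Fin N → κ) (i₀ : Fin N), (∀ c : Po N k, aeval τ c = 0 ↔ q ∣ c) ∧
    ¬ q ∣ pderiv i₀ q ∧
    (∀ j, j ≠ i₀ → ∃ δ : Derivation k κ κ, ∀ l, l ≠ i₀ → δ (τ l) = if l = j then 1 else 0) ∧
    ∀ (P : Po (N + 1) k) (H : Ideal (Po (N + 1) k)), Mny P → Pdv P H q →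
      ∃ ξ : κ, ∀ c : Po (N + 1) k, aeval (Fin.cons ξ τ : Fin (N + 1) → κ) c = 0 ↔ c ∈ H

/-- the power series points which are given by the roots of `P` -/
def T_ARC : Prop := ∀ (N r m : ℕ) (k κ : Type) [Field k] [CharZero k] [IsAlgClosed k] [Field κ]
  [IsAlgClosed κ] [Algebra k κ] (P : Po (N + 1) k) (q : Po N k) (τ : Fin N → κ) (i₀ : Fin N)
  (x : Fin r → PowerSeries κ), Hyp P r → Irreducible q → 1 ≤ m →
  (∀ c : Po N k, aeval τ c = 0 ↔ q ∣ c) → ¬ q ∣ pderiv i₀ q →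
  (∀ j, j ≠ i₀ → ∃ δ : Derivation k κ κ, ∀ l, l ≠ i₀ → δ (τ l) = if l = j then 1 else 0) →
  (finSuccEquiv k N P).map (aeval (fun l : Fin N => PowerSeries.C (τ l) +
    (if l = i₀ then PowerSeries.X ^ m else 0)) : Po N k →ₐ[k] PowerSeries κ).toRingHom =
      ∏ j, (Polynomial.X - Polynomial.C (x j)) →
  ∃ ψ : Fin r → Po (N + 1) k →ₐ[k] PowerSeries κ, Spl P q r ψ ∧ (∀ j, ψ j (X 0) = x j) ∧
    (∀ j (l : Fin N), ψ j (X l.succ) = PowerSeries.C (τ l) +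
      (if l = i₀ then PowerSeries.X ^ m else 0)) ∧
    (∀ j (l : Fin N) (c : Po (N + 1) k), ψ j c ∣ PowerSeries.X ^ m * ψ j (dd P l c)) ∧
    (m = 1 → ∀ j, (¬ PowerSeries.X ^ 2 ∣ ψ j (up q)) ∧
      (rd (ψ j) (pderiv 0 P) ≠ 0 → ∀ (l : Fin N) (c c' : Po (N + 1) k),
      Associated (ψ j c) (ψ j c') → ψ j (c * c') ∣ ψ j (dd P l c * c' - c * dd P l c')))

/-- power series points over a general hypersurface -/
def T_AG : Prop := ∀ (N r : ℕ) (k : Type) [Field k] [CharZero k] [IsAlgClosed k]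
  (P : Po (N + 1) k) (q ρ : Po N k) (A B : Po (N + 1) k), Hyp P r → Irreducible q →
  up ρ = A * P + B * pderiv 0 P → ¬ q ∣ ρ →
  ∃ (κ : Type) (_ : Field κ) (_ : Algebra k κ) (ψ : Fin r → Po (N + 1) k →ₐ[k] PowerSeries κ),
    Spl P q r ψ ∧ (∀ j, ¬ PowerSeries.X ^ 2 ∣ ψ j (up q)) ∧
    (∀ j (l : Fin N) (c c' : Po (N + 1) k), Associated (ψ j c) (ψ j c') →
      ψ j (c * c') ∣ ψ j (dd P l c * c' - c * dd P l c')) ∧
    ∀ H : Ideal (Po (N + 1) k), Pdv P H q → ∃ j, ∀ c, rd (ψ j) c = 0 ↔ c ∈ H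

/-- power series points over an arbitrary hypersurface -/
def T_AB : Prop := ∀ (N r : ℕ) (k : Type) [Field k] [CharZero k] [IsAlgClosed k]
  (P : Po (N + 1) k) (q : Po N k), Hyp P r → Irreducible q →
  ∃ (κ : Type) (_ : Field κ) (_ : Algebra k κ) (ψ : Fin r → Po (N + 1) k →ₐ[k] PowerSeries κ)
    (B : ℕ), Spl P q r ψ ∧
    ∀ j (l : Fin N) (c : Po (N + 1) k), ψ j c ∣ PowerSeries.X ^ B * ψ j (dd P l c)

/-- regular functions are recognized at the power series points -/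
def T_INT : Prop := ∀ (N r : ℕ) (k : Type) [Field k] [CharZero k] [IsAlgClosed k]
  (P c w : Po (N + 1) k), Hyp P r → ¬ P ∣ w →
  (∀ q : Po N k, Irreducible q → ∃ (κ : Type) (_ : Field κ) (_ : Algebra k κ)
    (ψ : Fin r → Po (N + 1) k →ₐ[k] PowerSeries κ), Spl P q r ψ ∧ ∀ j, ψ j w ∣ ψ j c) →
  ∃ v : Po (N + 1) k, P ∣ pderiv 0 P * c - w * v

/-! ## C. Totally invariant hypersurfaces -/

/-- local equations -/
def T_DVR : Prop := ∀ (N r : ℕ) (k : Type) [Field k] [CharZero k] [IsAlgClosed k]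
  (P : Po (N + 1) k) (H : Ideal (Po (N + 1) k)) (h : Po N k), Hyp P r → Pdv P H h →
  pderiv 0 P ∉ H → ∀ c ∈ H, ∃ s c' : Po (N + 1) k, s ∉ H ∧ P ∣ s * c - up h * c'

/-- simultaneous division by powers of the local equation -/
def T_DVS : Prop := ∀ (N r n : ℕ) (k : Type) [Field k] [CharZero k] [IsAlgClosed k]
  (P : Po (N + 1) k) (H : Ideal (Po (N + 1) k)) (h : Po N k) (c : Fin n → Po (N + 1) k),
  Hyp P r → Pdv P H h → pderiv 0 P ∉ H → (∃ i, ¬ P ∣ c i) →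
  ∃ (μ : ℕ) (s : Po (N + 1) k) (c' : Fin n → Po (N + 1) k), s ∉ H ∧
    (∀ i, P ∣ s * c i - up h ^ μ * c' i) ∧ ∃ i, c' i ∉ H

/-- a totally invariant hypersurface is not in the ramification -/
def T_UNR : Prop := ∀ (N r e : ℕ) (k κ : Type) [Field k] [CharZero k] [IsAlgClosed k] [Field κ]
  [Algebra k κ] (P : Po (N + 1) k) (F : Tup (N + 1) k) (θ Δ : Po (N + 1) k)
  (H : Ideal (Po (N + 1) k)) (h : Po N k) (ψ : Po (N + 1) k →ₐ[k] PowerSeries κ), Hyp P r →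
  Slf (Ideal.span {P}) F → Bas P F e θ Δ → Pdv P H h → Tot P F e θ H → pderiv 0 P ∉ H →
  Arc P ψ → (∀ c, rd ψ c = 0 ↔ c ∈ H) → ¬ PowerSeries.X ^ 2 ∣ ψ (up h) →
  Associated (ψ (aeval F (up h))) (ψ (up h))

/-- the dimension drops -/
def T_TDG : Prop := ∀ (N : ℕ) (k : Type) [Field k] [CharZero k] [IsAlgClosed k]
  (P : Po (N + 1) k) (H E : Ideal (Po (N + 1) k)) (h q : Po N k), Mny P → Pdv P H h →
  Pdv P E q → (∀ E' : Ideal (Po (N + 1) k), E'.IsPrime → H ≤ E' →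
    (∃ φ : (Po (N + 1) k ⧸ E') →ₐ[k] (Po (N + 1) k ⧸ E), Function.Injective φ ∧
      ∀ y : Po (N + 1) k ⧸ E, ∃ (n : ℕ) (a : Fin (n + 1) → Po (N + 1) k ⧸ E'), a (Fin.last n) ≠ 0 ∧
        ∑ i : Fin (n + 1), φ (a i) * y ^ (i : ℕ) = 0) → E' = H)

/-- a hypersurface whose image is in a totally invariant hypersurface `H` is `H` -/
def T_TI2 : Prop := ∀ (N r e : ℕ) (k : Type) [Field k] [CharZero k] [IsAlgClosed k]
  (P : Po (N + 1) k) (F : Tup (N + 1) k) (θ Δ : Po (N + 1) k), Hyp P r →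
  Slf (Ideal.span {P}) F → Bas P F e θ Δ → ∃ g₀ : Po N k, g₀ ≠ 0 ∧
  ∀ (E : Ideal (Po (N + 1) k)) (q : Po N k), Pdv P E q → ¬ q ∣ g₀ →
  ∀ (H : Ideal (Po (N + 1) k)) (h : Po N k), Pdv P H h → Tot P F e θ H → pderiv 0 P ∉ H →
  (∀ c ∈ H, aeval F c ∈ E) → E = H

/-- the jacobian determinant on the hypersurface -/
def T_JDT : Prop := ∀ (N : ℕ) (k : Type) [Field k] [CharZero k] (P : Po (N + 1) k)
  (F : Tup (N + 1) k), Irreducible P → Mny P → Slf (Ideal.span {P}) F →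
  ¬ P ∣ Matrix.det (Matrix.of fun l i : Fin N => dd P l (F i.succ))

/-- a discriminant -/
def T_SPX : Prop := ∀ (N r : ℕ) (k : Type) [Field k] [CharZero k] (P : Po (N + 1) k), Hyp P r →
  ∃ (ρ : Po N k) (A B : Po (N + 1) k), ρ ≠ 0 ∧ up ρ = A * P + B * pderiv 0 P

/-- the numerator of the coefficient of `F^* ω - ω` -/
noncomputable def Ye {N : ℕ} {k : Type} [Field k] (P : Po (N + 1) k) (F : Tup (N + 1) k)
    (a : Fin N → Po (N + 1) k) (w : Po (N + 1) k) (j : Fin N) : Po (N + 1) k :=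
  w * ∑ i, aeval F (a i) * dd P j (F i.succ) - a j * aeval F w * pderiv 0 P

/-- the denominator of `F^* ω - ω` -/
noncomputable def We {N : ℕ} {k : Type} [Field k] (P : Po (N + 1) k) (F : Tup (N + 1) k)
    (w : Po (N + 1) k) : Po (N + 1) k := aeval F w * w * pderiv 0 P

/-- `F^* ω - ω` has bounded poles -/
def T_ETA : Prop := ∀ (N r e : ℕ) (k : Type) [Field k] [CharZero k] [IsAlgClosed k]
  (P : Po (N + 1) k) (F : Tup (N + 1) k) (θ Δ : Po (N + 1) k), Hyp P r →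
  Slf (Ideal.span {P}) F → Bas P F e θ Δ → ∃ (g₀ : Po N k) (G : Po (N + 1) k), g₀ ≠ 0 ∧
  ¬ P ∣ G ∧ ∀ (H : Ideal (Po (N + 1) k)) (h : Po N k) (a : Fin N → Po (N + 1) k)
    (w : Po (N + 1) k) (m : ℕ), Pdv P H h → Tot P F e θ H → up g₀ ∉ H → Lfm P H h a w m →
    ∀ j, ∃ v : Po (N + 1) k, P ∣ G * Ye P F a w j - We P F w * v

/-- the logarithmic forms are linearly independent -/
def T_IND : Prop := ∀ (N r s : ℕ) (k : Type) [Field k] [CharZero k] [IsAlgClosed k]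
  (P : Po (N + 1) k) (ρ : Po N k) (A B : Po (N + 1) k) (H : Fin s → Ideal (Po (N + 1) k))
  (h : Fin s → Po N k) (a : Fin s → Fin N → Po (N + 1) k) (w : Fin s → Po (N + 1) k)
  (m : Fin s → ℕ), Hyp P r → up ρ = A * P + B * pderiv 0 P → (∀ l, Pdv P (H l) (h l)) →
  (∀ l, ¬ h l ∣ ρ) → (∀ l l', l ≠ l' → ¬ h l ∣ h l') →
  (∀ l, Lfm P (H l) (h l) (a l) (w l) (m l)) → ∀ lam : Fin s → k,
  (∀ i, P ∣ ∑ l, C (lam l) * a l i * ∏ l' ∈ Finset.univ.erase l, w l') → lam = 0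

/-- invariant forms give an invariant function -/
def T_REL : Prop := ∀ (N r d m : ℕ) (k : Type) [Field k] [CharZero k] [IsAlgClosed k]
  (P : Po (N + 1) k) (F : Tup (N + 1) k) (a : Fin (N + 1) → Fin N → Po (N + 1) k)
  (w : Po (N + 1) k), Hyp P r → (∀ i, (F i).IsHomogeneous d) → Slf (Ideal.span {P}) F →
  ¬ P ∣ w → (∀ μ i, (a μ i).IsHomogeneous m) →
  (∀ μ j, P ∣ w * ∑ i, aeval F (a μ i) * dd P j (F i.succ) -
    a μ j * aeval F w * pderiv 0 P) →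
  (∀ lam : Fin (N + 1) → k, (∀ i, P ∣ ∑ μ, C (lam μ) * a μ i) → lam = 0) → ¬ NIv P F

/-- there are only finitely many totally invariant hypersurfaces -/
def T_INV : Prop := ∀ (N r d e : ℕ) (k : Type) [Field k] [CharZero k] [IsAlgClosed k]
  (P : Po (N + 1) k) (F : Tup (N + 1) k) (θ Δ : Po (N + 1) k), Hyp P r →
  (∀ i, (F i).IsHomogeneous d) → Slf (Ideal.span {P}) F → Bas P F e θ Δ → NIv P F →
  ∃ g : Po N k, g ≠ 0 ∧ ∀ (H : Ideal (Po (N + 1) k)) (h : Po N k), Pdv P H h → Hmi H →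
    Tot P F e θ H → up g ∈ H

/-! ## D. The orbit closure -/

/-- the degree of a self-map -/
def T_BAS : Prop := ∀ (N : ℕ) (k : Type) [Field k] [CharZero k] [IsAlgClosed k]
  (P : Po (N + 1) k) (F : Tup (N + 1) k), Irreducible P → Mny P → Slf (Ideal.span {P}) F →
  ∃ (e : ℕ) (θ Δ : Po (N + 1) k), Bas P F e θ Δ ∧ Cvi (Ideal.span {P}) F e

/-- the Hilbert function of a closed subset of codimension at least two -/
def T_HFV : Prop := ∀ (N r : ℕ) (k : Type) [Field k] (P : Po (N + 1) k)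
  (V : Ideal (Po (N + 1) k)), Hyp P r → V.IsPrime → P ∈ V → (∃ c ∈ V, ¬ P ∣ c) →
  (¬ ∃ h, Pdv P V h) → ∃ B : ℕ, ∀ t, Hf V t ≤ B * (t + 1) ^ (N - 2)

/-- invariant functions of iterates -/
def T_NIV : Prop := ∀ (N r d m : ℕ) (k : Type) [Field k] [IsAlgClosed k] (P : Po (N + 1) k)
  (F : Tup (N + 1) k), Hyp P r → (∀ i, (F i).IsHomogeneous d) → Slf (Ideal.span {P}) F →
  1 ≤ m → NIv P F → NIv P (it F m)

/-- the orbit closure is a cone -/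
def T_CNE : Prop := ∀ (N r d e : ℕ) (k : Type) [Field k] [CharZero k] [IsAlgClosed k]
  (P : Po (N + 1) k) (T : Tup (N + 1) k) (θ Δ : Po (N + 1) k) (x : Fin (N + 1) → k), Hyp P r →
  2 ≤ d → (∀ i, (T i).IsHomogeneous d) → Slf (Ideal.span {P}) T → Bas P T e θ Δ →
  eval x P = 0 → (van T x).IsPrime → Tot P T e θ (van T x) → Δ ∉ van T x → Hmi (van T x)

/-- a point with totally invariant orbit closure -/
def T_COR (k : Type) [Field k] : Prop := ∀ (N r d : ℕ) (P b : Po (N + 1) k)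
  (F : Tup (N + 1) k), 1 ≤ N → Hyp P r → r ≤ d → (∀ i, (F i).IsHomogeneous d) →
  Slf (Ideal.span {P}) F → (∃ m, b.IsHomogeneous m) → ¬ P ∣ b →
  ∃ m, 1 ≤ m ∧ ∀ (E : ℕ) (θ Δ : Po (N + 1) k), Bas P (it F m) E θ Δ →
    Cvi (Ideal.span {P}) (it F m) E → ∀ g : Po N k, g ≠ 0 →
    ∃ x : Fin (N + 1) → k, eval x P = 0 ∧ (∀ n : ℕ, eval ((pmap F)^[n] x) b ≠ 0) ∧
      eval x (up g) ≠ 0 ∧ (van (it F m) x).IsPrime ∧ Tot P (it F m) E θ (van (it F m) x) ∧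
      ∀ M, 1 ≤ M → (∀ n : ℕ, Prp x ((pmap (it F m))^[M * n] x)) → Prp x (pmap (it F m) x)

/-- the theorem for hypersurfaces -/
def T_ZH (k : Type) [Field k] : Prop := ∀ (N r d e : ℕ) (P b : Po (N + 1) k)
  (F : Tup (N + 1) k), 1 ≤ N → Hyp P r → r ≤ d → 2 ≤ d → (∀ i, (F i).IsHomogeneous d) →
  Slf (Ideal.span {P}) F → NIv P F →
  (N ≤ 3 ∨ (Cvi (Ideal.span {P}) F e ∧ d ^ (N - 2) < e)) → (∃ m, b.IsHomogeneous m) → ¬ P ∣ b →
  ∃ x : Fin (N + 1) → k, eval x P = 0 ∧ (∀ n : ℕ, eval ((pmap F)^[n] x) b ≠ 0) ∧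
    ∀ c : Po (N + 1) k, (∀ n : ℕ, eval ((pmap F)^[n] x) c = 0) → P ∣ c

end Pool.Agent.H18.VZ
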