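import Pool.Agent.H18.VZ.DIR
import Pool.Agent.H18.HX.CoreX
import Pool.Agent.H13.HX.TargetsK
import Pool.Agent.H8.P2.LOWB

/-!
# Non-fibered maps on hypersurfaces: the theorem
-/

open MvPolynomial
open Pool.Agent.H12.ZD (pmap)
open Pool.Agent.H18.HIT Pool.Agent.H18.HX

namespace Pool.Agent.H18.VZ

section

variable {L : ℕ} {k : Type} [Field k]

theorem Prp.symm {u w : Fin L → k} (h : Prp u w) : Prp w u := by
  intro s t
  have h1 := h s t
  rw [mul_comm (w s), mul_comm (w t)]
  exact h1.symm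

theorem exists_of_prp {u w : Fin L → k} (h : Prp u w) (hu : u ≠ 0) :
    ∃ c : k, w = fun i => c * u i := by
  obtain ⟨s, hs⟩ : ∃ s, u s ≠ 0 := by
    by_contra hcon
    push Not at hcon
    exact hu (funext hcon)
  refine ⟨w s / u s, funext fun i => ?_⟩
  have h1 := h s i
  field_simp
  rw [mul_comm, h1]
  ring

theorem prp_of_eq {u w : Fin L → k} {c : k} (h : w = fun i => c * u i) : Prp u w := by
  intro s t
  rw [h]
  ring

theorem Prp.trans {u v w : Fin L → k} (h : Prp u v) (h' : Prp v w) (hv : v ≠ 0) : Prp u w := by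
  obtain ⟨a, ha⟩ := exists_of_prp h.symm hv
  obtain ⟨b, hb⟩ := exists_of_prp h' hv
  intro s t
  rw [ha, hb]
  ring

theorem Prp.map {T : Tup L k} {D : ℕ} (hT : ∀ i, (T i).IsHomogeneous D) {u w : Fin L → k}
    (h : Prp u w) (hu : u ≠ 0) (n : ℕ) : Prp ((pmap T)^[n] u) ((pmap T)^[n] w) := by
  obtain ⟨c, hc⟩ := exists_of_prp h hu
  apply prp_of_eq (c := c ^ (D ^ n))
  rw [hc, pmap_it_smul hT]

/-- recurrence and irreducibility of the orbit closure -/
theorem prp_of_rec {T : Tup L k} {D : ℕ} (hT : ∀ i, (T i).IsHomogeneous D) {x : Fin L → k}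
    (h0 : ∀ n, (pmap T)^[n] x ≠ 0) (hprime : (van T x).IsPrime) {n m : ℕ} (hnm : n < m)
    (hrec : Prp ((pmap T)^[n] x) ((pmap T)^[m] x)) : Prp x (pmap T x) := by
  classical
  have hfin : ∀ j, ∃ i < m, Prp ((pmap T)^[i] x) ((pmap T)^[j] x) := by
    intro j
    induction j using Nat.strong_induction_on with
    | _ j ih =>
      rcases Nat.lt_or_ge j m with hj | hj
      · exact ⟨j, hj, fun s t => mul_comm _ _⟩
      · obtain ⟨l, rfl⟩ : ∃ l, j = l + m := ⟨j - m, by omega⟩
        have h1 : Prp ((pmap T)^[l + n] x) ((pmap T)^[l + m] x) := by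
          rw [Function.iterate_add_apply, Function.iterate_add_apply]
          exact hrec.map hT (h0 n) l
        obtain ⟨i, hi, h2⟩ := ih (l + n) (by omega)
        exact ⟨i, hi, h2.trans h1 (h0 _)⟩
  have hsep : ∀ y : Fin L → k, ∃ ℓ : Po L k, (¬ Prp x y → eval x ℓ ≠ 0) ∧
      ∀ y', Prp y y' → eval y' ℓ = 0 ∨ Prp x y := by
    intro y
    by_cases hy : Prp x y
    · exact ⟨0, fun h => absurd hy h, fun _ _ => Or.inr hy⟩
    · have hy' := hy
      unfold Prp at hy'
      push Not at hy'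
      obtain ⟨s, t, hst⟩ := hy'
      refine ⟨C (y t) * X s - C (y s) * X t, fun _ => ?_, fun y' h' => Or.inl ?_⟩
      · rw [map_sub, map_mul, map_mul, eval_C, eval_C, eval_X, eval_X, sub_ne_zero]
        intro h3
        apply hst
        rw [mul_comm (x s), h3, mul_comm]
      · rw [map_sub, map_mul, map_mul, eval_C, eval_C, eval_X, eval_X, sub_eq_zero]
        exact h' t s
  choose ℓ hℓ1 hℓ2 using hsep
  set I : Finset ℕ := (Finset.range m).filter fun i => ¬ Prp x ((pmap T)^[i] x) with hI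
  set R : Po L k := ∏ i ∈ I, ℓ ((pmap T)^[i] x) with hR
  have hRx : eval x R ≠ 0 := by
    rw [hR, map_prod, Finset.prod_ne_zero_iff]
    intro i hi
    exact hℓ1 _ (Finset.mem_filter.mp hi).2
  have hRv : R ∉ van T x := fun h => hRx (h 0)
  have hu : ∀ s t, (C (x s) * X t - C (x t) * X s) ∈ van T x := by
    intro s t
    have h1 : (C (x s) * X t - C (x t) * X s) * R ∈ van T x := by
      intro j
      obtain ⟨i, hi, hij⟩ := hfin j
      rw [map_mul]
      by_cases hx : Prp x ((pmap T)^[i] x)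
      · have h2 := hx.trans hij (h0 i)
        rw [map_sub, map_mul, map_mul, eval_C, eval_C, eval_X, eval_X, h2 s t, sub_self, zero_mul]
      · have h2 : eval ((pmap T)^[j] x) R = 0 := by
          rw [hR, map_prod]
          apply Finset.prod_eq_zero (i := i)
          · exact Finset.mem_filter.mpr ⟨Finset.mem_range.mpr hi, hx⟩
          · exact (hℓ2 _ _ hij).resolve_right hx
        rw [h2, mul_zero]
    exact (hprime.mem_or_mem h1).resolve_right hRv
  intro s t
  have h1 := hu s t 1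
  rw [Function.iterate_one, map_sub, map_mul, map_mul, eval_C, eval_C, eval_X, eval_X] at h1
  exact sub_eq_zero.mp h1

end

/-- a map without invariant functions is not the identity -/
theorem exists_moved {N r : ℕ} {k : Type} [Field k] {P : Po (N + 1) k} {T : Tup (N + 1) k}
    (hN : 2 ≤ N) (hP : Hyp P r) (hs : Slf (Ideal.span {P}) T)
    (hNI : NIv P T) : ∃ s t, ¬ P ∣ X s * T t - X t * T s := by
  by_contra hcon
  push Not at hcon
  have hpr := hP.irr.prime
  have hne : ∀ j : Fin N, ¬ P ∣ X j.succ := by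
    intro j h
    have h1 : (X j.succ : Po (N + 1) k) = up (X j) := by rw [up, rename_X]
    rw [h1] at h
    exact Pool.Agent.H49.VZ.not_dvd_up hP (X_ne_zero j) h
  obtain ⟨a, ha⟩ : ∃ a : Fin N, a = ⟨0, by omega⟩ := ⟨_, rfl⟩
  obtain ⟨b, hb⟩ : ∃ b : Fin N, b = ⟨1, by omega⟩ := ⟨_, rfl⟩
  have hab : a ≠ b := by
    rw [ha, hb]
    intro h
    have := congrArg Fin.val h
    simp at this
  have h1 : P ∣ aeval T (X b.succ : Po (N + 1) k) * X a.succ -
      aeval T (X a.succ : Po (N + 1) k) * X b.succ := by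
    have h2 := hcon a.succ b.succ
    rw [aeval_X, aeval_X]
    have h3 : T b.succ * X a.succ - T a.succ * X b.succ =
        X a.succ * T b.succ - X b.succ * T a.succ := by ring
    rw [h3]
    exact h2
  obtain ⟨c, hc⟩ := hNI 1 (X b.succ) (X a.succ) (isHomogeneous_X _ _) (isHomogeneous_X _ _)
    (hne a) h1
  have h4 : (X b.succ - C c * X a.succ : Po (N + 1) k) = up (X b - C c * X a) := by
    rw [up, map_sub, map_mul, rename_X, rename_X, rename_C]
  rw [h4] at hc
  have hne0 : (X b - C c * X a : Po N k) ≠ 0 := ?_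
  · exact Pool.Agent.H49.VZ.not_dvd_up hP hne0 hc
  intro h5
  have h6 := congrArg (eval (Pi.single b 1 : Fin N → k)) h5
  rw [map_sub, map_mul, eval_C, eval_X, eval_X, Pi.single_eq_same, Pi.single_eq_of_ne hab,
    mul_zero, sub_zero, map_zero] at h6
  exact one_ne_zero h6

theorem pf_ZH (k : Type) [Field k] [CharZero k] [IsAlgClosed k] (hCOR : T_COR k)
    (hNIV : T_NIV) (hBAS : T_BAS) (hINV : T_INV) (hNRX : T_NRX) (hCNE : T_CNE) (hHFV : T_HFV)
    (hCNI : T_CNI) (hCDV : Pool.Agent.H13.HX.T_CDV) : T_ZH k := by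
  classical
  intro N r d e P b F hN hP hrd hd hF hs hNI hcase hb hPb
  have hpr := hP.irr.prime
  have hprime := isPrime_span hP.irr
  have hX1 : ∀ j : Fin N, ¬ P ∣ (X j.succ : Po (N + 1) k) := by
    intro j h
    have h1 : (X j.succ : Po (N + 1) k) = up (X j) := by rw [up, rename_X]
    rw [h1] at h
    exact Pool.Agent.H49.VZ.not_dvd_up hP (X_ne_zero j) h
  obtain ⟨t₁, ht₁⟩ : ∃ t₁ : Fin N, t₁ = ⟨0, by omega⟩ := ⟨_, rfl⟩
  obtain ⟨mb, hmb⟩ := hb
  obtain ⟨m, hm, hcor⟩ := hCOR N r d P (b * X t₁.succ) F hN hP hrd hF hs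
    ⟨mb + 1, hmb.mul (isHomogeneous_X _ _)⟩ (fun h => (hpr.dvd_or_dvd h).elim hPb (hX1 t₁))
  obtain ⟨T, hT⟩ : ∃ T, T = it F m := ⟨_, rfl⟩
  have hsT : Slf (Ideal.span {P}) T := by rw [hT]; exact hs.it m
  have hThom : ∀ i, (T i).IsHomogeneous (d ^ m) := by rw [hT]; exact it_hom hF m
  have hNT : NIv P T := by rw [hT]; exact hNIV N r d m k P F hP hF hs hm hNI
  have hD2 : 2 ≤ d ^ m := by
    calc 2 ≤ d := hd
      _ = d ^ 1 := (pow_one d).symm
      _ ≤ d ^ m := Nat.pow_le_pow_right (by omega) hm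
  obtain ⟨E, θ, Δ, hB, hcv⟩ := hBAS N k P T hP.irr hP.mon hsT
  obtain ⟨g₁, hg₁, hinv⟩ := hINV N r (d ^ m) E k P T θ Δ hP hThom hsT hB hNT
  obtain ⟨c', A', hc'0, hc'⟩ := hNRX N k P Δ hP.irr hP.mon hB.ne
  -- a polynomial which excludes periodic points
  obtain ⟨c'', hc''0, hc''⟩ : ∃ c'' : Po N k, c'' ≠ 0 ∧ (2 ≤ N → ∀ x : Fin (N + 1) → k,
      eval x P = 0 → eval x (up c'') ≠ 0 → ¬ Prp x (pmap T x)) := by
    rcases Nat.lt_or_ge N 2 with h2 | h2
    · exact ⟨1, one_ne_zero, fun h => absurd h (by omega)⟩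
    obtain ⟨s, t, hst⟩ := exists_moved h2 hP hsT hNT
    obtain ⟨c'', A'', hc''0, B'', hc''⟩ := hNRX N k P _ hP.irr hP.mon hst
    refine ⟨c'', hc''0, fun _ x hx hxc hprp => hxc ?_⟩
    have h1 := congrArg (eval x) hc''
    rw [map_sub, map_mul, map_mul (eval x) P, hx, zero_mul] at h1
    have h3 : eval x (X s * T t - X t * T s) = 0 := by
      rw [map_sub, map_mul, map_mul, eval_X, eval_X, sub_eq_zero]
      exact hprp s t
    rw [h3, zero_mul, sub_zero] at h1
    exact h1
  subst hT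
  obtain ⟨x, hxP, hxb, hxg, hVp, hVt, -⟩ := hcor E θ Δ hB hcv (g₁ * (c' * c''))
    (mul_ne_zero hg₁ (mul_ne_zero hc'0 hc''0))
  have hxg' : eval x (up g₁) ≠ 0 ∧ eval x (up c') ≠ 0 ∧ eval x (up c'') ≠ 0 := by
    have h1 : eval x (up (g₁ * (c' * c''))) = eval x (up g₁) * (eval x (up c') *
        eval x (up c'')) := by
      rw [up, up, up, up, map_mul, map_mul, map_mul, map_mul]
    rw [h1] at hxg
    exact ⟨left_ne_zero_of_mul hxg, left_ne_zero_of_mul (right_ne_zero_of_mul hxg),
      right_ne_zero_of_mul (right_ne_zero_of_mul hxg)⟩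
  obtain ⟨hxg₁, hxc', hxc''⟩ := hxg'
  obtain ⟨V, hV⟩ : ∃ V, V = van (it F m) x := ⟨_, rfl⟩
  have hxΔ : eval x Δ ≠ 0 := by
    intro h0
    apply hxc'
    obtain ⟨B', hB'⟩ := hc'
    have h1 := congrArg (eval x) hB'
    rw [map_sub, map_mul, map_mul (eval x) P, hxP, h0, zero_mul, zero_mul, sub_zero] at h1
    exact h1
  have hzer := zer_span.mpr hxP
  have hPV : P ∈ V := by
    rw [hV]
    intro n
    exact zer_iterate hsT.inv hzer n P (Ideal.mem_span_singleton_self P)
  have hΔV : Δ ∉ V := by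
    rw [hV]
    exact fun h => hxΔ (h 0)
  have hHm : Hmi V := by
    rw [hV]
    rw [hV] at hΔV
    exact hCNE N r (d ^ m) E k P (it F m) θ Δ x hP hD2 hThom hsT hB hxP hVp hVt hΔV
  have h0 : ∀ n, (pmap (it F m))^[n] x ≠ 0 := by
    intro n h
    apply hxb (m * n)
    rw [← pmap_it_iterate, h, map_mul, eval_X, Pi.zero_apply, mul_zero]
  rw [← hV] at hVp hVt
  have hmain : ∀ c ∈ V, P ∣ c := by
    intro c hc
    by_contra hPc
    by_cases hex : ∃ h, Pdv P V h
    · obtain ⟨h, hh⟩ := hex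
      have h1 := hinv V h hh hHm hVt
      rw [hV] at h1
      exact hxg₁ (h1 0)
    obtain ⟨B, hBV⟩ := hHFV N r k P V hP hVp hPV ⟨c, hc, hPc⟩ hex
    rcases Nat.lt_or_ge N 3 with hN3 | hN3
    · have h1 : N - 2 = 0 := by omega
      have h2 := Pool.Agent.H8.P2.lowb (J := 1) (w := fun _ => x) (I := V)
        (fun q hq m => hHm q hq m) (fun _ q hq => by rw [hV] at hq; exact hq 0)
        (fun a b hab => absurd (Subsingleton.elim a b) hab) (fun _ => h0 0) (B + 1)
      have h3 := hBV (1 + (B + 1))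
      rw [h1, pow_zero, mul_one] at h3
      omega
    rcases Nat.lt_or_ge 3 N with hN4 | hN4
    · obtain ⟨hcvF, hdeg⟩ := hcase.resolve_left (by omega)
      have h1 := hCNI (N + 1) k (Ideal.span {P}) F e m hs hcvF
      have h2 : e ^ m ≤ E := by
        refine hCDV (N + 1) (e ^ m) E k (Ideal.span {P}) (it F m) θ h1 hB.pos fun u => ?_
        obtain ⟨M, c, hc⟩ := hB.gen u
        refine ⟨Δ ^ M, c, ?_, ?_⟩
        · rw [Ideal.mem_span_singleton]
          exact fun h => hB.ne (hpr.dvd_of_dvd_pow h)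
        · rw [Ideal.mem_span_singleton, map_pow]
          exact hc
      have h3 : (d ^ m) ^ (N - 2) < E := by
        calc (d ^ m) ^ (N - 2) = (d ^ (N - 2)) ^ m := by
              rw [← pow_mul, ← pow_mul, Nat.mul_comm]
          _ < e ^ m := Nat.pow_lt_pow_left hdeg (by omega)
          _ ≤ E := h2
      have h4 : 1 ≤ deg (it F m) := by
        by_contra hlt
        have h5 := hThom 0
        have h6 : (it F m 0).totalDegree = 0 := by
          have := totalDegree_le_deg (it F m) 0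
          omega
        have h7 : it F m 0 ≠ 0 := by
          intro h8
          have h9 : aeval (it F m) (X 0 : Po (N + 1) k) ∈ Ideal.span {P} := by
            rw [aeval_X, h8]
            exact Ideal.zero_mem _
          have h10 := Ideal.mem_span_singleton.mp (hsT.inj _ h9)
          have h11 : aeval (it F m) (X t₁.succ : Po (N + 1) k) = it F m t₁.succ := aeval_X _ _
          obtain ⟨i, hi⟩ : ∃ i, it F m i ≠ 0 := by
            by_contra hcon
            push Not at hcon
            apply hX1 t₁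
            rw [← Ideal.mem_span_singleton]
            apply hsT.inj
            rw [h11, hcon]
            exact Ideal.zero_mem _
          have h12 := (hThom i).totalDegree hi
          have h13 := totalDegree_le_deg (it F m) i
          omega
        have h8 := h5.totalDegree h7
        omega
      refine Pool.Agent.H8.HIT.pf_GRW (N + 1) k V (it F m) θ E B (N - 2) ?_ h4
        (lt_of_le_of_lt (Nat.pow_le_pow_left (deg_of_hom hThom) _) h3) hVt.inv hVt.ind hBV
      rw [hV]
      exact one_notMem_van _ _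
    · have hN33 : N = 3 := by omega
      have h1 : N - 2 = 1 := by omega
      rw [hV] at hHm hBV hVp
      obtain ⟨n, m', hnm, hrec⟩ := Pool.Agent.H8.P2.two_prop (T := it F m) (y := x) (B := B)
        (fun q hq m => hHm q hq m) (fun t => by
          have := hBV t
          rwa [h1, pow_one] at this) h0
      exact hc'' (by omega) x hxP hxc'' (prp_of_rec hThom h0 hVp hnm hrec)
  refine ⟨x, hxP, fun n => ?_, fun c hc => hmain c ?_⟩
  · have h1 := hxb n
    rw [map_mul] at h1
    exact left_ne_zero_of_mul h1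
  · rw [hV]
    intro n
    rw [pmap_it_iterate]
    exact hc _

end Pool.Agent.H18.VZ
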