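import Pool.Agent.H18.HX.All
import Pool.Agent.H18.VP.Cor2
import Pool.Agent.H18.VP.HNX
import Pool.Agent.H18.VP.PRX
import Pool.Agent.H18.VP.INC
import Pool.Agent.H18.VP.INB
import Pool.Agent.H18.VP.BIN
import Pool.Agent.H18.VP.PRM
import Pool.Agent.H18.VP.LFX
import Pool.Agent.H18.VZ.ZH
import Pool.Agent.H8.HX.PEG
import Pool.Agent.H63.VP.PLC
import Pool.Agent.H54.VP.HPA
import Pool.Agent.H78.VP.HPQ
import Pool.Agent.H33.VP.HPK
import Pool.Agent.H15.VP.HGK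
import Pool.Agent.H55.VZ.AB
import Pool.Agent.H94.VZ.AG
import Pool.Agent.H67.VZ.ARC
import Pool.Agent.H70.VZ.BAS
import Pool.Agent.H27.VZ.BIJ
import Pool.Agent.H80.VZ.CNE
import Pool.Agent.H1.VZ.DVR
import Pool.Agent.H67.VZ.DVS
import Pool.Agent.H33.VZ.EKR
import Pool.Agent.H68.VZ.HFC
import Pool.Agent.H5.VZ.HFV
import Pool.Agent.H37.VZ.HMG
import Pool.Agent.H19.VZ.IND
import Pool.Agent.H10.VZ.INT
import Pool.Agent.H63.VZ.JDT
import Pool.Agent.H35.VZ.KAP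
import Pool.Agent.H49.VZ.LA1
import Pool.Agent.H49.VZ.LA2
import Pool.Agent.H49.VZ.LA3
import Pool.Agent.H94.VZ.LCH
import Pool.Agent.H5.VZ.NIV
import Pool.Agent.H97.VZ.NPX
import Pool.Agent.H19.VZ.REL
import Pool.Agent.H11.VZ.SPX
import Pool.Agent.H1.VZ.TDG
import Pool.Agent.H19.VZ.TI2
import Pool.Agent.H27.VZ.TRA
import Pool.Agent.H11.VZ.TRD
import Pool.Agent.H15.VZ.UNR
import Pool.Agent.H34.VZ.VRG

/-!
# Non-fibered rational self-maps of arbitrary varieties: the rows together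
-/

open MvPolynomial
open Pool.Agent.H12.ZD (pmap)
open Pool.Agent.H18.HIT Pool.Agent.H18.HX Pool.Agent.H18.VP

namespace Pool.Agent.H18.VZ.Facts

/-! ## Points with good orbits over fields of finite transcendence degree -/

theorem peg : T_PEG := Pool.Agent.H8.HX.pf_PEG
theorem plc : T_PLC := Pool.Agent.H63.VP.pf_PLC
theorem hpk : T_HPK := Pool.Agent.H33.VP.pf_HPK Pool.Agent.H18.HIT.All.sep
  Pool.Agent.H18.HX.All.irs Pool.Agent.H54.VP.pf_HPA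
  (Pool.Agent.H78.VP.pf_HPQ Pool.Agent.H18.HIT.All.ber Pool.Agent.H18.HIT.All.hik)
theorem hgk : T_HGK := Pool.Agent.H15.VP.pf_HGK peg hpk

theorem cor (k : Type) [Field k] [IsAlgClosed k] [CharZero k] (hk : Ftd k) : T_COR k := by
  have hina : Pool.Agent.H18.VP.T_INA k := Pool.Agent.H18.VP.pf_INA
  have hinb : Pool.Agent.H18.VP.T_INB k := Pool.Agent.H18.VP.pf_INB Pool.Agent.H18.VP.pf_BIN
  have hinc : Pool.Agent.H18.VP.T_INC k := Pool.Agent.H18.VP.pf_INC hina hinb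
  exact Pool.Agent.H18.VP.pf_COR
    (Pool.Agent.H18.VP.pf_GDX plc hk All.wpo Pool.Agent.H30.HX.pf_IND Pool.Agent.H49.HX.pf_MPW
      All.fry All.nds Pool.Agent.H18.VP.pf_LFX)
    All.jcx All.chh All.alx peg hgk hk (Pool.Agent.H18.VP.pf_PRX hina) Pool.Agent.H18.VP.pf_HNX
    All.nrx hinc hinb (Pool.Agent.H18.VP.pf_PRM hina hinc)

/-! ## Totally invariant hypersurfaces -/

theorem trd : T_TRD := Pool.Agent.H11.VZ.pf_TRD Pool.Agent.H27.VZ.pf_BIJ Pool.Agent.H27.VZ.pf_TRA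
theorem ekr : T_EKR := Pool.Agent.H33.VZ.pf_EKR
theorem dir : T_DIR := pf_DIR trd Pool.Agent.H34.VZ.pf_VRG (Pool.Agent.H49.VZ.pf_LA1 ekr)
  (Pool.Agent.H49.VZ.pf_LA2 ekr) (Pool.Agent.H49.VZ.pf_LA3 ekr) Pool.Agent.H37.VZ.pf_HMG
theorem frm : T_FRM := Pool.Agent.H94.VZ.pf_FRM dir
theorem kap : T_KAP := Pool.Agent.H35.VZ.pf_KAP
theorem arc : T_ARC := Pool.Agent.H67.VZ.pf_ARC
theorem npx : T_NPX := Pool.Agent.H97.VZ.pf_NPX Pool.Agent.H68.VZ.pf_HFC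
theorem ag : T_AG := Pool.Agent.H94.VZ.pf_AG kap arc
theorem ab : T_AB := Pool.Agent.H55.VZ.pf_AB kap arc npx
theorem int : Pool.Agent.H18.VZ.T_INT := Pool.Agent.H10.VZ.pf_INT
theorem dvr : T_DVR := Pool.Agent.H1.VZ.pf_DVR
theorem dvs : T_DVS := Pool.Agent.H67.VZ.pf_DVS dvr
theorem unr : T_UNR := Pool.Agent.H15.VZ.pf_UNR dvr dvs
theorem tdg : T_TDG := Pool.Agent.H1.VZ.pf_TDG
theorem ti2 : T_TI2 := Pool.Agent.H19.VZ.pf_TI2 dvs tdg
theorem jdt : T_JDT := Pool.Agent.H63.VZ.pf_JDT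
theorem spx : T_SPX := Pool.Agent.H11.VZ.pf_SPX
theorem ind : Pool.Agent.H18.VZ.T_IND := Pool.Agent.H19.VZ.pf_IND ag
theorem rel : T_REL := Pool.Agent.H19.VZ.pf_REL

/-! ## The orbit closure -/

theorem bas : T_BAS := Pool.Agent.H70.VZ.pf_BAS
theorem hfv : T_HFV := Pool.Agent.H5.VZ.pf_HFV
theorem niv : T_NIV := Pool.Agent.H5.VZ.pf_NIV
theorem cne : T_CNE := Pool.Agent.H80.VZ.pf_CNE

theorem zh (k : Type) [Field k] [IsAlgClosed k] [CharZero k] (hk : Ftd k) (hINV : T_INV) :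
    T_ZH k :=
  pf_ZH k (cor k hk) niv bas hINV All.nrx cne hfv All.cni All.cdv

end Pool.Agent.H18.VZ.Facts
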