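import Pool.Agent.H18.VZ.FinZ
import Pool.Agent.H18.HX.TWI
import Pool.Agent.H15.VZ.ETA
import Pool.Agent.H60.VZ.INV
import Pool.Agent.H8.HX.PRX
import Pool.Agent.H13.HX.HIG

/-!
# Rational self-maps of arbitrary varieties: the final theorems without hypotheses
-/

open MvPolynomial
open Pool.Agent.H12.ZD (pmap)
open Pool.Agent.H18.HIT Pool.Agent.H18.HX Pool.Agent.H18.VP

namespace Pool.Agent.H18.VZ

theorem Facts.eta : T_ETA := Pool.Agent.H15.VZ.pf_ETA Facts.spx Facts.ag Facts.ab Facts.int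
  Facts.unr Facts.ti2 Facts.jdt

theorem Facts.inv : T_INV := Pool.Agent.H60.VZ.pf_INV Facts.spx Facts.frm Facts.eta Facts.ind
  Facts.rel

/-- non-fibered rational self-maps of arbitrary varieties -/
theorem finalZ {L : ℕ} {k : Type} [Field k] [IsAlgClosed k]
    [CharZero k] (hk : Ftd k) {I : Ideal (Po L k)} (hI : I.IsPrime)
    (hhom : ∀ c ∈ I, ∀ t, homogeneousComponent t c ∈ I) (hne : ∃ i, X i ∉ I) (n : ℕ)
    (hdim : ∀ u : Fin (n + 2) → Po L k, ∃ q : Po (n + 2) k, q ≠ 0 ∧ aeval u q ∈ I)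
    (f : Tup L k) (d : ℕ) (hd : 1 ≤ d) (hf : ∀ i, (f i).IsHomogeneous d)
    (hinv : ∀ c ∈ I, aeval f c ∈ I)
    (hdom : ∀ (s : ℕ) (q : Po L k), q.IsHomogeneous s → aeval f q ∈ I → q ∈ I)
    (hNf : Nfi I f)
    (hlarge : 3 ≤ n → ∃ (g : Tup L k) (e m dg : ℕ), Pvi I f e ∧ 1 ≤ m ∧
        (∀ i, (g i).IsHomogeneous dg) ∧ 1 ≤ dg ∧ (∃ i, g i ∉ I) ∧
        (∀ x, Zer I x → ∀ i j, (pmap f)^[m] x i * eval x (g j) =
          (pmap f)^[m] x j * eval x (g i)) ∧ dg ^ (n - 2) < e ^ m)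
    (b : Po L k) (t : ℕ) (hb : b.IsHomogeneous t) (hbI : b ∉ I) :
    ∃ x : Fin L → k, Zer I x ∧ (∀ j : ℕ, (pmap f)^[j] x ≠ 0) ∧
      (∀ j : ℕ, eval ((pmap f)^[j] x) b ≠ 0) ∧
      ∀ (s : ℕ) (h : Po L k), h.IsHomogeneous s → (∀ j : ℕ, eval ((pmap f)^[j] x) h = 0) →
        h ∈ I :=
  finalZ_of Facts.inv pf_TWI hk hI hhom hne n hdim f d hd hf hinv hdom hNf hlarge b t hb hbI

/-- rational self-maps of large topological degree and polarised endomorphisms -/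
theorem finalX {L : ℕ} {k : Type} [Field k] [IsAlgClosed k] [CharZero k] {I : Ideal (Po L k)}
    (hI : I.IsPrime) (hhom : ∀ c ∈ I, ∀ t, homogeneousComponent t c ∈ I) (hne : ∃ i, X i ∉ I)
    (f : Tup L k) (d : ℕ) (hf : ∀ i, (f i).IsHomogeneous d)
    (hinv : ∀ c ∈ I, aeval f c ∈ I)
    (hlarge : (2 ≤ d ∧ ∀ x, Zer I x → pmap f x = 0 → x = 0) ∨
      ∃ (g : Tup L k) (e m n dg : ℕ), Pvi I f e ∧
        (∀ u : Fin (n + 2) → Po L k, ∃ q : Po (n + 2) k, q ≠ 0 ∧ aeval u q ∈ I) ∧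
        (∀ i, (g i).IsHomogeneous dg) ∧ 1 ≤ dg ∧ (∃ i, g i ∉ I) ∧
        (∀ x, Zer I x → ∀ i j, (pmap f)^[m] x i * eval x (g j) =
          (pmap f)^[m] x j * eval x (g i)) ∧ dg ^ (n - 1) < e ^ m)
    (b : Po L k) (t : ℕ) (hb : b.IsHomogeneous t) (hbI : b ∉ I) :
    ∃ x : Fin L → k, Zer I x ∧ (∀ j : ℕ, (pmap f)^[j] x ≠ 0) ∧
      (∀ j : ℕ, eval ((pmap f)^[j] x) b ≠ 0) ∧
      ∀ (s : ℕ) (h : Po L k), h.IsHomogeneous s → (∀ j : ℕ, eval ((pmap f)^[j] x) h = 0) →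
        h ∈ I :=
  final_of Facts.peg (Pool.Agent.H13.HX.pf_HIG Facts.peg Pool.Agent.H18.HIT.All.ber
    Pool.Agent.H18.HIT.All.hik) (Pool.Agent.H8.HX.pf_PRX Pool.Agent.H18.HIT.All.ina) pf_TWI hI
    hhom hne f d hf hinv hlarge b t hb hbI

end Pool.Agent.H18.VZ
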