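import Pool.Agent.H49.VZ.Base
import Pool.Agent.H8.HX.GDX

/-!
# Row DIR: forms in the direction of a coordinate
-/

open MvPolynomial
open Pool.Agent.H12.ZD (pmap)
open Pool.Agent.H18.HIT Pool.Agent.H18.HX

namespace Pool.Agent.H18.VZ

theorem hyp_pos {N r : ℕ} {k : Type} [Field k] {P : Po (N + 1) k} (hP : Hyp P r) : 1 ≤ r := by
  rcases Nat.eq_zero_or_pos r with h | h
  · exfalso
    subst h
    have h1 : P.totalDegree = 0 := Nat.le_zero.mp hP.hom.totalDegree_le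
    rw [totalDegree_eq_zero_iff_eq_C] at h1
    apply hP.irr.not_isUnit
    rw [h1]
    refine (IsUnit.mk0 _ ?_).map C
    intro hc
    rw [hc, C_0] at h1
    exact hP.irr.ne_zero h1
  · exact h

theorem not_dvd_px {N r : ℕ} {k : Type} [Field k] [CharZero k] {P : Po (N + 1) k}
    (hP : Hyp P r) : ¬ P ∣ pderiv 0 P := Pool.Agent.H8.HX.not_dvd_pderiv hP.mon hP.irr

theorem up_hom {N m : ℕ} {k : Type} [Field k] {c : Po N k} (hc : c.IsHomogeneous m) :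
    (up c).IsHomogeneous m := hc.rename_isHomogeneous

theorem pf_DIR (hTRD : T_TRD) (hVRG : T_VRG) (h1 : T_LA1) (h2 : T_LA2) (h3 : T_LA3)
    (hHMG : T_HMG) : T_DIR := by
  intro N r k _ _ _ P H h i hP hH hHm hi
  obtain ⟨χ, U, δ, m, hχ, hm, hχm, hT⟩ := hTRD N r k P H h i hP hH hHm hi
  have hr := hyp_pos hP
  have hw : (pderiv 0 P * up χ).IsHomogeneous (r - 1 + m) := hP.hom.pderiv.mul (up_hom hχm)
  have hM : r - 1 + m = (r - 1 + m - 1) + 1 := by omega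
  rw [hM] at hw
  have hD : Dfm P H h i (num P r U) (pderiv 0 P * up χ) := by
    refine ⟨?_, ?_, ?_, ?_⟩
    · intro hd
      rcases hP.irr.prime.dvd_or_dvd hd with h | h
      · exact not_dvd_px hP h
      · exact Pool.Agent.H49.VZ.not_dvd_up hP hχ h
    · intro κ _ _ ψ hψ hex
      obtain ⟨Ω, _, _, ι, 𝒪, hdom⟩ := hVRG κ
      obtain ⟨ρ, ξ, Rt, s, htrd⟩ := hT κ ψ hψ Ω ι 𝒪 hdom
      rw [map_mul, map_mul]
      exact mul_dvd_mul_left _ (h1 N r k κ Ω P H h i χ U ψ ι 𝒪 δ ρ ξ Rt s hP hH hψ hχ hdom htrd hex)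
    · intro κ _ _ ψ hψ hker hpx
      obtain ⟨Ω, _, _, ι, 𝒪, hdom⟩ := hVRG κ
      obtain ⟨ρ, ξ, Rt, s, htrd⟩ := hT κ ψ hψ Ω ι 𝒪 hdom
      exact h2 N r k κ Ω P H h i χ U ψ ι 𝒪 δ ρ ξ Rt s hP hH hψ hχ hdom htrd hker hpx
    · intro κ _ _ ψ hψ B hB
      obtain ⟨Ω, _, _, ι, 𝒪, hdom⟩ := hVRG κ
      obtain ⟨ρ, ξ, Rt, s, htrd⟩ := hT κ ψ hψ Ω ι 𝒪 hdom
      have h4 := h3 N r k κ Ω P H h i χ U ψ ι 𝒪 δ ρ ξ Rt s B hP hH hψ hχ hdom htrd hB
      rw [map_mul, map_mul]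
      have h5 : PowerSeries.X ^ B * (ψ (pderiv 0 P) * ψ (num P r U)) =
          ψ (pderiv 0 P) * (PowerSeries.X ^ B * ψ (num P r U)) := by ring
      rw [h5]
      exact mul_dvd_mul_left _ h4
  exact ⟨homogeneousComponent (r - 1 + m - 1) (num P r U), pderiv 0 P * up χ, r - 1 + m - 1,
    hHMG N r (r - 1 + m - 1) k P H h i _ _ hP hH hHm hw hD, hw,
    homogeneousComponent_isHomogeneous _ _⟩

end Pool.Agent.H18.VZ
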