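import Pool.Agent.H18.HX.Targets

/-!
# Non-fibered rational self-maps of arbitrary varieties: definitions

`P` is a homogeneous irreducible polynomial in `N + 1` variables which is monic in `X 0`. Let `K` be
the fraction field of `Po (N + 1) k / (P)`, a finite extension of `k(t)`, `t_i = X i.succ`.
-/

open MvPolynomial
open Pool.Agent.H12.ZD (pmap)
open Pool.Agent.H18.HIT Pool.Agent.H18.HX

namespace Pool.Agent.H18.VZ

section

variable {N : ℕ} {k : Type} [Field k] {κ : Type} [Field κ] [Algebra k κ]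

/-- power series points of the hypersurface `P = 0` which are not contained in a smaller closed
subset -/
def Arc (P : Po (N + 1) k) (ψ : Po (N + 1) k →ₐ[k] PowerSeries κ) : Prop :=
  ∀ c, ψ c = 0 ↔ P ∣ c

/-- the constant term -/
noncomputable def rd (ψ : Po (N + 1) k →ₐ[k] PowerSeries κ) (c : Po (N + 1) k) : κ :=
  PowerSeries.constantCoeff (ψ c)

/-- the composition of a power series point with the map `F` -/
noncomputable def cpa (ψ : Po (N + 1) k →ₐ[k] PowerSeries κ) (F : Tup (N + 1) k) :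
    Po (N + 1) k →ₐ[k] PowerSeries κ := ψ.comp (aeval F)

/-- homogeneous ideals -/
def Hmi {L : ℕ} (H : Ideal (Po L k)) : Prop := ∀ c ∈ H, ∀ t, homogeneousComponent t c ∈ H

/-- a hypersurface in the variety `P = 0`; `h` is the equation of its projection to the space of
the `t_i` -/
structure Pdv (P : Po (N + 1) k) (H : Ideal (Po (N + 1) k)) (h : Po N k) : Prop where
  prime : H.IsPrime
  mem : P ∈ H
  irr : Irreducible h
  iff : ∀ c : Po N k, up c ∈ H ↔ h ∣ c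

/-- the coefficient of `dt_i` of a logarithmic form with residue `1` along `H` is `a / w` -/
structure Dfm (P : Po (N + 1) k) (H : Ideal (Po (N + 1) k)) (h : Po N k) (i : Fin N)
    (a w : Po (N + 1) k) : Prop where
  ne : ¬ P ∣ w
  reg : ∀ (κ : Type) [Field κ] [Algebra k κ] (ψ : Po (N + 1) k →ₐ[k] PowerSeries κ), Arc P ψ →
    (∃ c ∈ H, rd ψ c ≠ 0) → ψ w ∣ ψ (pderiv 0 P * a)
  res : ∀ (κ : Type) [Field κ] [Algebra k κ] (ψ : Po (N + 1) k →ₐ[k] PowerSeries κ), Arc P ψ →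
    (∀ c, rd ψ c = 0 ↔ c ∈ H) → rd ψ (pderiv 0 P) ≠ 0 →
    ψ (w * up h) ∣ ψ (a * up h - w * up (pderiv i h))
  bnd : ∀ (κ : Type) [Field κ] [Algebra k κ] (ψ : Po (N + 1) k →ₐ[k] PowerSeries κ), Arc P ψ →
    ∀ B : ℕ, (∀ g : Po N k, ψ (up g) ∣ PowerSeries.X ^ B * ψ (up (pderiv i g))) →
    ψ w ∣ PowerSeries.X ^ B * ψ (pderiv 0 P * a)

/-- a logarithmic form `∑ (a_i / w) dt_i` with residue `1` along `H`, homogeneous of weight `0` -/
structure Lfm (P : Po (N + 1) k) (H : Ideal (Po (N + 1) k)) (h : Po N k)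
    (a : Fin N → Po (N + 1) k) (w : Po (N + 1) k) (m : ℕ) : Prop where
  ne : ¬ P ∣ w
  wh : w.IsHomogeneous (m + 1)
  ah : ∀ i, (a i).IsHomogeneous m
  reg : ∀ (κ : Type) [Field κ] [Algebra k κ] (ψ : Po (N + 1) k →ₐ[k] PowerSeries κ), Arc P ψ →
    (∃ c ∈ H, rd ψ c ≠ 0) → ∀ i, ψ w ∣ ψ (pderiv 0 P * a i)
  res : ∀ (κ : Type) [Field κ] [Algebra k κ] (ψ : Po (N + 1) k →ₐ[k] PowerSeries κ), Arc P ψ →
    (∀ c, rd ψ c = 0 ↔ c ∈ H) → rd ψ (pderiv 0 P) ≠ 0 →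
    ∀ i, ψ (w * up h) ∣ ψ (a i * up h - w * up (pderiv i h))
  bnd : ∀ (κ : Type) [Field κ] [Algebra k κ] (ψ : Po (N + 1) k →ₐ[k] PowerSeries κ), Arc P ψ →
    ∀ B : ℕ, (∀ (i : Fin N) (g : Po N k),
      ψ (up g) ∣ PowerSeries.X ^ B * ψ (up (pderiv i g))) →
    ∀ i, ψ w ∣ PowerSeries.X ^ B * ψ (pderiv 0 P * a i)

/-- the `r` power series points over a hypersurface `q = 0` in the space of the `t_i` -/
structure Spl (P : Po (N + 1) k) (q : Po N k) (r : ℕ)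
    (ψ : Fin r → Po (N + 1) k →ₐ[k] PowerSeries κ) : Prop where
  arc : ∀ j, Arc P (ψ j)
  base : ∀ j j' (c : Po N k), ψ j (up c) = ψ j' (up c)
  iff : ∀ j (c : Po N k), rd (ψ j) (up c) = 0 ↔ q ∣ c
  split : ∀ j, (finSuccEquiv k N P).map
    ((ψ j : Po (N + 1) k →+* PowerSeries κ).comp (rename Fin.succ : Po N k →ₐ[k] _).toRingHom) =
      ∏ l, (Polynomial.X - Polynomial.C (ψ l (X 0)))

/-- the tuple `F` maps `P = 0` to itself with degree `e`, and `1, θ, ..., θ ^ (e - 1)` generate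
the functions over the pulled back functions, with denominator `Δ` -/
structure Bas (P : Po (N + 1) k) (F : Tup (N + 1) k) (e : ℕ) (θ Δ : Po (N + 1) k) : Prop where
  pos : 1 ≤ e
  ne : ¬ P ∣ Δ
  gen : ∀ u : Po (N + 1) k, ∃ (M : ℕ) (c : Fin e → Po (N + 1) k),
    P ∣ aeval F Δ ^ M * u - ∑ i : Fin e, θ ^ (i : ℕ) * aeval F (c i)

/-- `H` is totally invariant under `F`: the degree of the restriction of `F` to `H` is the degree
of `F` -/
structure Tot (P : Po (N + 1) k) (F : Tup (N + 1) k) (e : ℕ) (θ : Po (N + 1) k)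
    (H : Ideal (Po (N + 1) k)) : Prop where
  inv : ∀ c ∈ H, aeval F c ∈ H
  ind : ∀ c : Fin e → Po (N + 1) k, (∑ i : Fin e, θ ^ (i : ℕ) * aeval F (c i)) ∈ H →
    ∀ i, c i ∈ H

/-- there is no invariant function -/
def NIv (P : Po (N + 1) k) (F : Tup (N + 1) k) : Prop :=
  ∀ (m : ℕ) (A B : Po (N + 1) k), A.IsHomogeneous m → B.IsHomogeneous m → ¬ P ∣ B →
    P ∣ aeval F A * B - aeval F B * A → ∃ s : k, P ∣ A - C s * B

/-- `u` and `w` are proportional -/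
def Prp {L : ℕ} (u w : Fin L → k) : Prop := ∀ s t, u s * w t = u t * w s

end

/-- a valuation ring of `Ω` over the power series ring -/
structure Dom {κ Ω : Type} [Field κ] [Field Ω] (ι : PowerSeries κ →+* Ω)
    (𝒪 : ValuationSubring Ω) : Prop where
  inj : Function.Injective ι
  mem : ∀ c, ι c ∈ 𝒪
  dvd : ∀ c c', c' ≠ 0 → ι c / ι c' ∈ 𝒪 → c' ∣ c

section trd

variable {N : ℕ} {k : Type} [Field k] {κ : Type} [Field κ] [Algebra k κ]

/-- the value at the point with the coordinates of `ψ`, except that `X 0 = ξ` and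
`X i.succ = ρ` -/
noncomputable def evx {Ω : Type} [Field Ω] (ι : PowerSeries κ →+* Ω)
    (ψ : Po (N + 1) k →ₐ[k] PowerSeries κ) (i : Fin N) (ξ ρ : Ω) (c : Po (N + 1) k) : Ω :=
  c.eval₂ (ι.comp (algebraMap k (PowerSeries κ)))
    (Fin.cons ξ (fun l => if l = i then ρ else ι (ψ (X l.succ))))

/-- the conjugates of the point `(X 0, X i.succ)` of `H` over the other coordinates, seen at the
power series point `ψ`, and the symmetric functions `χ`, `U j` formed with them -/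
structure Trd (P : Po (N + 1) k) (H : Ideal (Po (N + 1) k)) (h : Po N k) (i : Fin N)
    (χ : Po N k) (U : ℕ → Po N k) (ψ : Po (N + 1) k →ₐ[k] PowerSeries κ)
    {Ω : Type} [Field Ω] (ι : PowerSeries κ →+* Ω) (𝒪 : ValuationSubring Ω) (δ : ℕ)
    (ρ ξ : Fin δ → Ω) (Rt : Finset Ω) (s : k) : Prop where
  chi : ι (ψ (up χ)) = ∏ σ, (ι (ψ (X i.succ)) - ρ σ)
  trc : ∀ j, ι (ψ (up (U j))) =
    ∑ σ, ξ σ ^ j * ∏ σ' ∈ Finset.univ.erase σ, (ι (ψ (X i.succ)) - ρ σ')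
  rho : ∀ σ, ρ σ ∈ 𝒪
  xi : ∀ σ, ξ σ ∈ 𝒪
  zer : ∀ σ, ∀ c ∈ H, evx ι ψ i (ξ σ) (ρ σ) c = 0
  sne : s ≠ 0
  hh : ι (ψ (up h)) = ι (algebraMap k (PowerSeries κ) s) *
    ∏ β ∈ Rt, (ι (ψ (X i.succ)) - β)
  hd : ∀ j : ℕ, ι (ψ (up ((pderiv i)^[j] h))) = ι (algebraMap k (PowerSeries κ) s) *
    (Polynomial.derivative^[j] (∏ β ∈ Rt, (Polynomial.X - Polynomial.C β))).eval
      (ι (ψ (X i.succ)))
  rmem : ∀ β ∈ Rt, β ∈ 𝒪
  rho_mem : ∀ σ, ρ σ ∈ Rt
  one : (∀ c, rd ψ c = 0 ↔ c ∈ H) → ∃ σ₀, 𝒪.valuation (ι (ψ (X i.succ)) - ρ σ₀) < 1 ∧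
    𝒪.valuation (ι (ψ (X 0)) - ξ σ₀) < 1 ∧
    (∀ σ, 𝒪.valuation (ι (ψ (X i.succ)) - ρ σ) < 1 → 𝒪.valuation (ι (ψ (X 0)) - ξ σ) < 1 →
      σ = σ₀) ∧
    ∀ β ∈ Rt, 𝒪.valuation (ι (ψ (X i.succ)) - β) < 1 → β = ρ σ₀

end trd

end Pool.Agent.H18.VZ
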