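import Pool.Agent.H18.VZ.Nfi

/-!
# Non-fibered self-maps of arbitrary varieties: assembly for an arbitrary variety
-/

open MvPolynomial
open Pool.Agent.H12.ZD (pmap)
open Pool.Agent.H18.HIT Pool.Agent.H18.HX

namespace Pool.Agent.H18.VZ

theorem numericZ (N g δ E : ℕ) (hg : 1 ≤ g) (hN : 4 ≤ N) (h : g ^ (N - 3) < E) :
    ∃ j : ℕ, 1 ≤ j ∧ (g ^ j + δ) ^ (N - 2) < (g ^ j + δ) * E ^ j := by
  obtain ⟨j, hj, hj'⟩ := exists_pow_lt ((1 + δ) ^ (N - 3)) (g ^ (N - 3)) E h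
  refine ⟨j, hj, ?_⟩
  have h1 : N - 2 = (N - 3) + 1 := by omega
  rw [h1, pow_succ, mul_comm]
  have h4 : 1 ≤ g ^ j := Nat.one_le_pow _ _ hg
  have h2 : 0 < g ^ j + δ := by omega
  apply Nat.mul_lt_mul_of_pos_left _ h2
  have h3 : g ^ j + δ ≤ (1 + δ) * g ^ j := by
    nlinarith
  calc (g ^ j + δ) ^ (N - 3) ≤ ((1 + δ) * g ^ j) ^ (N - 3) := Nat.pow_le_pow_left h3 _
    _ = (1 + δ) ^ (N - 3) * (g ^ (N - 3)) ^ j := by
        rw [mul_pow, ← pow_mul, ← pow_mul, Nat.mul_comm j]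
    _ < E ^ j := hj'

/-- dominance for forms is dominance -/
theorem slf_of_forms {L : ℕ} {k : Type} [Field k] {I : Ideal (Po L k)}
    (hhom : ∀ c ∈ I, ∀ t, homogeneousComponent t c ∈ I)
    {f : Tup L k} {d : ℕ} (hd : 1 ≤ d) (hf : ∀ i, (f i).IsHomogeneous d)
    (hinv : ∀ c ∈ I, aeval f c ∈ I)
    (hdom : ∀ (s : ℕ) (q : Po L k), q.IsHomogeneous s → aeval f q ∈ I → q ∈ I) : Slf I f := by
  refine ⟨hinv, fun c hc => ?_⟩
  rw [← sum_homogeneousComponent c]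
  apply Ideal.sum_mem
  intro t _
  apply hdom t _ (homogeneousComponent_isHomogeneous t c)
  rw [← hom_comp_aeval hf hd]
  exact hhom _ hc _

section

variable {L : ℕ} {k : Type} [Field k] [IsAlgClosed k] [CharZero k] {I : Ideal (Po L k)}

/-- the theorem for an iterate of a map `g`, with a projection given -/
theorem varz0 (hZ : T_ZH k) (hPVI : T_PVI) (hLFT : T_LFT) (hTWI : T_TWI) (hTRV : T_TRV)
    [hI : I.IsPrime] (hhom : ∀ c ∈ I, ∀ t, homogeneousComponent t c ∈ I) {N r δ dg E : ℕ}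
    {l : Fin (N + 1) → Po L k} {P : Po (N + 1) k} {Δ : Po N k} (hpro : Pro I l P r Δ δ)
    {g : Tup L k} (hg : ∀ i, (g i).IsHomogeneous dg) (hdg : 1 ≤ dg) (hs : Slf I g)
    (hNf : Nfi I g) (hnum : N ≤ 3 ∨ (Pvi I g E ∧ dg ^ (N - 3) < E)) :
    ∃ j : ℕ, 1 ≤ j ∧ ∀ (m : ℕ) (b : Po L k), b.IsHomogeneous m → b ∉ I →
      ∃ a, Zer I a ∧ (∀ n : ℕ, eval ((pmap (it g j))^[n] a) b ≠ 0) ∧
        ∀ (t : ℕ) (h : Po L k), h.IsHomogeneous t →
          (∀ n : ℕ, eval ((pmap (it g j))^[n] a) h = 0) → h ∈ I := by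
  have hr : 1 ≤ r := by
    by_contra hr0
    have hr0' : r = 0 := by omega
    apply hpro.hyp.irr.not_isUnit
    have h1 : P.totalDegree = 0 := by
      have := hpro.hyp.hom.totalDegree_le
      omega
    rw [totalDegree_eq_zero_iff_eq_C] at h1
    rw [h1, isUnit_map_iff, isUnit_iff_ne_zero]
    intro h0
    rw [h0, C_0] at h1
    exact hpro.hyp.irr.ne_zero h1
  have hδ : 1 ≤ δ := hr.trans hpro.le
  obtain ⟨j, hj, hj'⟩ : ∃ j : ℕ, 1 ≤ j ∧ (N ≤ 3 ∨
      (Pvi I g E ∧ (dg ^ j + δ) ^ (N - 2) < (dg ^ j + δ) * E ^ j)) := by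
    rcases Nat.lt_or_ge 3 N with h | h
    · obtain ⟨h1, h2⟩ := hnum.resolve_left (by omega)
      obtain ⟨j, hj, hj'⟩ := numericZ N dg δ E hdg (by omega) h2
      exact ⟨j, hj, Or.inr ⟨h1, hj'⟩⟩
    · exact ⟨1, le_rfl, Or.inl h⟩
  refine ⟨j, hj, fun m b hb hbI => ?_⟩
  have hgj := it_hom hg j
  have hsj := hs.it j
  obtain ⟨F, hF, hFl, hFP⟩ := hLFT L N r δ (dg ^ j) k I l P Δ (it g j) hpro hhom hgj hsj.inv
  have hdj : 1 ≤ dg ^ j := Nat.one_le_pow _ _ hdg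
  have hsF : Slf (Ideal.span {P}) F := lift_slf hpro hsj hF (by omega) hFl hFP
  have hNF : NIv P F := lift_niv hpro (nfi_it hNf hg hs hj) hFl
  obtain ⟨b', hb', hPb', htr⟩ := hTRV L N r δ (dg ^ j) m k I l P Δ (it g j) F b hpro hhom hgj
    hsj.inv hF hFl hb hbI
  obtain ⟨y, hy, hyb, hyd⟩ := hZ N r (dg ^ j + δ) ((dg ^ j + δ) * E ^ j) P b' F hpro.one
    hpro.hyp (hpro.le.trans (Nat.le_add_left _ _)) (by omega) hF hsF hNF (by
      rcases hj' with h | ⟨h1, h2⟩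
      · exact Or.inl h
      · right
        refine ⟨?_, h2⟩
        have hcj := hPVI L dg E j k I g hg hs h1
        exact hTWI L N r δ (dg ^ j) (E ^ j) k I l P Δ (it g j) F hpro hhom hgj hsj hF hFl hcj)
    hb' hPb'
  exact htr y hy hyb hyd

/-- the theorem for a map `g`: all points of the orbit -/
theorem varz1 (hZ : T_ZH k) (hPVI : T_PVI) (hLFT : T_LFT) (hTWI : T_TWI) (hTRV : T_TRV)
    [hI : I.IsPrime] (hhom : ∀ c ∈ I, ∀ t, homogeneousComponent t c ∈ I) {N r δ dg E : ℕ}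
    {l : Fin (N + 1) → Po L k} {P : Po (N + 1) k} {Δ : Po N k} (hpro : Pro I l P r Δ δ)
    {g : Tup L k} (hg : ∀ i, (g i).IsHomogeneous dg) (hdg : 1 ≤ dg) (hs : Slf I g)
    (hNf : Nfi I g) (hnum : N ≤ 3 ∨ (Pvi I g E ∧ dg ^ (N - 3) < E)) (m : ℕ) (b : Po L k)
    (hb : b.IsHomogeneous m) (hbI : b ∉ I) :
    ∃ a, Zer I a ∧ (∀ n : ℕ, eval ((pmap g)^[n] a) b ≠ 0) ∧
      ∀ (t : ℕ) (h : Po L k), h.IsHomogeneous t →
        (∀ n : ℕ, eval ((pmap g)^[n] a) h = 0) → h ∈ I := by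
  obtain ⟨j, hj, hall⟩ := varz0 hZ hPVI hLFT hTWI hTRV hhom hpro hg hdg hs hNf hnum
  have hB : (∏ i ∈ Finset.range j, aeval (it g i) b).IsHomogeneous
      (∑ i ∈ Finset.range j, dg ^ i * m) :=
    IsHomogeneous.prod _ _ _ fun i _ => aeval_hom (it_hom hg i) hb
  have hBI : (∏ i ∈ Finset.range j, aeval (it g i) b) ∉ I :=
    prod_notMem _ _ fun i _ hi => hbI ((hs.it i).inj b hi)
  obtain ⟨a, ha, hab, had⟩ := hall _ _ hB hBI
  refine ⟨a, ha, fun n => ?_, fun t h hh hh0 => had t h hh fun n => ?_⟩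
  · have h1 := hab (n / j)
    rw [map_prod, Finset.prod_ne_zero_iff] at h1
    have h2 := h1 (n % j) (Finset.mem_range.mpr (Nat.mod_lt _ hj))
    rw [eval_aeval, pmap_it, pmap_it_iterate, ← Function.iterate_add_apply,
      Nat.mod_add_div] at h2
    exact h2
  · rw [pmap_it_iterate]
    exact hh0 _

/-- non-fibered rational self-maps of arbitrary varieties: large degree -/
theorem varz2 (hZ : T_ZH k) (hPVI : T_PVI) (hPVR : T_PVR) (hNFA : T_NFA)
    (hNFB : T_NFB) (hNFC : T_NFC) (hLFT : T_LFT) (hTWI : T_TWI) (hTRV : T_TRV)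
    (hI : I.IsPrime) (hhom : ∀ c ∈ I, ∀ t, homogeneousComponent t c ∈ I) (hne : ∃ i, X i ∉ I)
    (f g : Tup L k) (b : Po L k) (d dg e m n t : ℕ) (hf : ∀ i, (f i).IsHomogeneous d)
    (hsf : Slf I f) (hNf : Nfi I f) (hm : 1 ≤ m)
    (hdim : ∀ u : Fin (n + 2) → Po L k, ∃ q : Po (n + 2) k, q ≠ 0 ∧ aeval u q ∈ I)
    (hg : ∀ i, (g i).IsHomogeneous dg) (hdg : 1 ≤ dg) (hgI : ∃ i, g i ∉ I)
    (hcross : ∀ i j, it f m i * g j - it f m j * g i ∈ I)
    (hdeg : n ≤ 2 ∨ (Pvi I f e ∧ dg ^ (n - 2) < e ^ m))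
    (hb : b.IsHomogeneous t) (hbI : b ∉ I) :
    ∃ x : Fin L → k, Zer I x ∧ (∀ j : ℕ, (pmap f)^[j] x ≠ 0) ∧
      (∀ j : ℕ, eval ((pmap f)^[j] x) b ≠ 0) ∧
      ∀ (s : ℕ) (h : Po L k), h.IsHomogeneous s → (∀ j : ℕ, eval ((pmap f)^[j] x) h = 0) →
        h ∈ I := by
  have hsm := hsf.it m
  obtain ⟨i0, hi0⟩ := hne
  -- some component of the iterate is not in the ideal
  have hfm : ∃ j, it f m j ∉ I := by
    refine ⟨i0, fun h => hi0 (hsm.inj _ ?_)⟩
    rw [aeval_X]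
    exact h
  have hsg : Slf I g := slf_cross hhom hsm hcross hfm hg hdg hgI
  have hginv := hsg.inv
  have hNg : Nfi I g := (nfi_it hNf hf hsf hm).cross hcross hgI
  obtain ⟨N, l, hN, hl1, hind, hint, hden⟩ := hNFA L k I hhom ⟨i0, hi0⟩
  have hl0 : ∃ Q : Polynomial (Po N k), Q.Monic ∧
      evg (fun j : Fin N => l j.succ) (l 0) Q ∈ I := int_all hint _
  obtain ⟨P, r, hP, hker⟩ := hNFB L N k I l hhom hl1 hind hl0
  obtain ⟨Δ, δ, hpro⟩ := hNFC L N r k I l P hN hhom hl1 hind hint hden hP hker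
  have hNn := dim_le hind hdim
  have hnum : N ≤ 3 ∨ (Pvi I g (e ^ m) ∧ dg ^ (N - 3) < e ^ m) := by
    rcases hdeg with h | ⟨h1, h2⟩
    · left
      omega
    · right
      have hcovm := hPVI L d e m k I f hf hsf h1
      refine ⟨hPVR L (d ^ m) dg (e ^ m) k I (it f m) g hhom (it_hom hf m) hg hdg hsm hcross hgI
        hcovm, ?_⟩
      exact lt_of_le_of_lt (Nat.pow_le_pow_right hdg (by omega)) h2
  set B : Po L k := b * X i0 with hBdef
  have hBh : B.IsHomogeneous (t + 1) := hb.mul (isHomogeneous_X k i0)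
  have hBI : B ∉ I := fun h => (hI.mem_or_mem h).elim hbI hi0
  have hB1h : (∏ i ∈ Finset.range (m + 1), aeval (it f i) B).IsHomogeneous
      (∑ i ∈ Finset.range (m + 1), d ^ i * (t + 1)) :=
    IsHomogeneous.prod _ _ _ fun i _ => aeval_hom (it_hom hf i) hBh
  have hB1I : (∏ i ∈ Finset.range (m + 1), aeval (it f i) B) ∉ I :=
    prod_notMem _ _ fun i _ hi => hBI ((hsf.it i).inj B hi)
  obtain ⟨a, ha, hab, had⟩ := varz1 hZ hPVI hLFT hTWI hTRV hhom hpro hg hdg hsg hNg hnum _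
    _ hB1h hB1I
  have hBx : ∀ (n i : ℕ), i ≤ m → eval ((pmap f)^[i] ((pmap g)^[n] a)) B ≠ 0 := by
    intro n i hi
    have h1 := hab n
    rw [map_prod, Finset.prod_ne_zero_iff] at h1
    have h2 := h1 i (Finset.mem_range.mpr (by omega))
    rwa [eval_aeval, pmap_it] at h2
  have hne0 : ∀ x : Fin L → k, eval x B ≠ 0 → x ≠ 0 := by
    rintro x hx rfl
    apply hx
    rw [hBdef, map_mul, eval_X, Pi.zero_apply, mul_zero]
  have hstep : ∀ n, ∃ c : k, c ≠ 0 ∧ (pmap f)^[m] ((pmap g)^[n] a) =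
      fun i => c * (pmap g)^[n + 1] a i := by
    intro n
    have hz := zer_iterate hginv ha n
    have h1 : (pmap g)^[n + 1] a ≠ 0 := hne0 _ (hBx (n + 1) 0 (Nat.zero_le _))
    have h2 : (pmap f)^[m] ((pmap g)^[n] a) ≠ 0 := hne0 _ (hBx n m le_rfl)
    obtain ⟨j, hj⟩ := Function.ne_iff.mp h1
    rw [Pi.zero_apply] at hj
    have h3 : ∀ i, (pmap f)^[m] ((pmap g)^[n] a) i * (pmap g)^[n + 1] a j =
        (pmap f)^[m] ((pmap g)^[n] a) j * (pmap g)^[n + 1] a i := by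
      intro i
      have h4 := hz _ (hcross i j)
      rw [map_sub, map_mul, map_mul, sub_eq_zero] at h4
      have h5 : ∀ i, eval ((pmap g)^[n] a) (it f m i) = (pmap f)^[m] ((pmap g)^[n] a) i := by
        intro i
        exact congrFun (pmap_it f m ((pmap g)^[n] a)) i
      have h6 : ∀ i, eval ((pmap g)^[n] a) (g i) = (pmap g)^[n + 1] a i := by
        intro i
        rw [Function.iterate_succ_apply']
        rfl
      rw [h5, h5, h6, h6] at h4
      exact h4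
    have h7 : (pmap f)^[m] ((pmap g)^[n] a) = fun i =>
        ((pmap f)^[m] ((pmap g)^[n] a) j / (pmap g)^[n + 1] a j) * (pmap g)^[n + 1] a i := by
      funext i
      rw [div_mul_eq_mul_div, eq_div_iff hj]
      exact h3 i
    refine ⟨_, ?_, h7⟩
    intro h0
    apply h2
    rw [h7, h0]
    funext i
    rw [zero_mul, Pi.zero_apply]
  have horb : ∀ n, ∃ c : k, c ≠ 0 ∧ (pmap f)^[m * n] a = fun i => c * (pmap g)^[n] a i := by
    intro n
    induction n with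
    | zero =>
      refine ⟨1, one_ne_zero, ?_⟩
      funext i
      rw [one_mul]
      rfl
    | succ n ih =>
      obtain ⟨c, hc, hc'⟩ := ih
      obtain ⟨c₁, hc₁, hc₁'⟩ := hstep n
      refine ⟨c ^ (d ^ m) * c₁, mul_ne_zero (pow_ne_zero _ hc) hc₁, ?_⟩
      rw [Nat.mul_succ, Nat.add_comm (m * n) m, Function.iterate_add_apply, hc',
        pmap_it_smul hf, hc₁']
      funext i
      ring
  have hBf : ∀ j, eval ((pmap f)^[j] a) B ≠ 0 := by
    intro j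
    obtain ⟨c, hc, hc'⟩ := horb (j / m)
    have h1 : (pmap f)^[j] a = (pmap f)^[j % m] ((pmap f)^[m * (j / m)] a) := by
      rw [← Function.iterate_add_apply, Nat.mod_add_div]
    rw [h1, hc', pmap_it_smul hf, eval_smul_of_hom hBh]
    exact mul_ne_zero (pow_ne_zero _ (pow_ne_zero _ hc))
      (hBx (j / m) (j % m) (Nat.mod_lt _ hm).le)
  refine ⟨a, ha, fun j => hne0 _ (hBf j), fun j => ?_, fun s h hh hh0 => ?_⟩
  · have h1 := hBf j
    rw [hBdef, map_mul] at h1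
    exact left_ne_zero_of_mul h1
  · apply had s h hh
    intro n
    obtain ⟨c, hc, hc'⟩ := horb n
    have h1 := hh0 (m * n)
    rw [hc', eval_smul_of_hom hh] at h1
    exact (mul_eq_zero.mp h1).resolve_left (pow_ne_zero _ hc)

end

end Pool.Agent.H18.VZ
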