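import Pool.Agent.H18.VZ.Facts
import Pool.Agent.H18.VZ.VarZ
import Pool.Agent.H18.HX.Fin

/-!
# Non-fibered rational self-maps of arbitrary varieties: the final theorem
-/

open MvPolynomial
open Pool.Agent.H12.ZD (pmap)
open Pool.Agent.H18.HIT Pool.Agent.H18.HX Pool.Agent.H18.VP

namespace Pool.Agent.H18.VZ

theorem finalZ_of (hINV : T_INV) (hTWI : T_TWI) {L : ℕ} {k : Type} [Field k] [IsAlgClosed k]
    [CharZero k] (hk : Ftd k) {I : Ideal (Po L k)} (hI : I.IsPrime)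
    (hhom : ∀ c ∈ I, ∀ t, homogeneousComponent t c ∈ I) (hne : ∃ i, X i ∉ I) (n : ℕ)
    (hdim : ∀ u : Fin (n + 2) → Po L k, ∃ q : Po (n + 2) k, q ≠ 0 ∧ aeval u q ∈ I)
    (f : Tup L k) (d : ℕ) (hd : 1 ≤ d) (hf : ∀ i, (f i).IsHomogeneous d)
    (hinv : ∀ c ∈ I, aeval f c ∈ I)
    (hdom : ∀ (s : ℕ) (q : Po L k), q.IsHomogeneous s → aeval f q ∈ I → q ∈ I)
    (hNf : Nfi I f)
    (hlarge : 3 ≤ n → ∃ (g : Tup L k) (e m dg : ℕ), Pvi I f e ∧ 1 ≤ m ∧
        (∀ i, (g i).IsHomogeneous dg) ∧ 1 ≤ dg ∧ (∃ i, g i ∉ I) ∧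
        (∀ x, Zer I x → ∀ i j, (pmap f)^[m] x i * eval x (g j) =
          (pmap f)^[m] x j * eval x (g i)) ∧ dg ^ (n - 2) < e ^ m)
    (b : Po L k) (t : ℕ) (hb : b.IsHomogeneous t) (hbI : b ∉ I) :
    ∃ x : Fin L → k, Zer I x ∧ (∀ j : ℕ, (pmap f)^[j] x ≠ 0) ∧
      (∀ j : ℕ, eval ((pmap f)^[j] x) b ≠ 0) ∧
      ∀ (s : ℕ) (h : Po L k), h.IsHomogeneous s → (∀ j : ℕ, eval ((pmap f)^[j] x) h = 0) →
        h ∈ I := by
  have hZ := Facts.zh k hk hINV
  have hsf := slf_of_forms hhom hd hf hinv hdom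
  rcases Nat.lt_or_ge n 3 with hn | hn
  · refine varz2 hZ All.pvi All.pvr All.nfa All.nfb All.nfc All.lft hTWI All.trv hI hhom hne f f b
      d d 0 1 n t hf hsf hNf le_rfl hdim hf hd ?_ (fun i j => ?_) (Or.inl (by omega)) hb hbI
    · obtain ⟨i0, hi0⟩ := hne
      refine ⟨i0, fun h => hi0 (hsf.inj _ ?_)⟩
      rw [aeval_X]
      exact h
    · have h1 : ∀ i, it f 1 i = f i := by
        intro i
        apply MvPolynomial.funext
        intro x
        exact congrFun (pmap_it f 1 x) i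
      rw [h1, h1, mul_comm, sub_self]
      exact I.zero_mem
  · obtain ⟨g, e, m, dg, hcov, hm, hg, hdg, hgI, hcross, hdeg⟩ := hlarge hn
    refine varz2 hZ All.pvi All.pvr All.nfa All.nfb All.nfc All.lft hTWI All.trv hI hhom hne f g b
      d dg e m n t hf hsf hNf hm hdim hg hdg hgI (fun i j => ?_) (Or.inr ⟨hcov, hdeg⟩) hb hbI
    apply mem_of_zer
    intro x hx
    have h1 := hcross x hx i j
    rw [map_sub, map_mul, map_mul, sub_eq_zero]
    have h2 : ∀ l, eval x (it f m l) = (pmap f)^[m] x l := fun l => congrFun (pmap_it f m x) l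
    rw [h2, h2]
    exact h1

end Pool.Agent.H18.VZ
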